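import Mathlib

/-!
# Logarithmic derivatives and traces

`d` a derivation of a ring, `tr` a trace which vanishes on the image of `d`; then
`u ↦ tr (u⁻¹ d u)` is a homomorphism on units.  If everything lifts to a ring where the values
of the trace are torsion free, it vanishes on unipotent elements and therefore descends to
quotients by nil ideals.
-/

namespace Pool.Agent.Y69.TP

/-- a derivation and a trace -/
structure DT (A Λ : Type) [Ring A] [AddCommGroup Λ] where
  /-- the derivation -/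
  d : A →+ A
  /-- the trace -/
  tr : A →+ Λ
  leib : ∀ x y, d (x * y) = d x * y + x * d y
  comm : ∀ x y, tr (x * y) = tr (y * x)
  trd : ∀ x, tr (d x) = 0

namespace DT

variable {A Λ : Type} [Ring A] [AddCommGroup Λ] (S : DT A Λ)

/-- the logarithmic derivative -/
def D (u : Aˣ) : Λ := S.tr (((u⁻¹ : Aˣ) : A) * S.d (u : A))

theorem d_one : S.d 1 = 0 := by
  have h := S.leib 1 1
  rw [mul_one, one_mul, mul_one] at h
  exact left_eq_add.1 h

theorem D_one : S.D 1 = 0 := by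
  unfold D
  rw [Units.val_one, S.d_one, mul_zero, map_zero]

theorem D_mul (u v : Aˣ) : S.D (u * v) = S.D u + S.D v := by
  unfold D
  rw [mul_inv_rev, Units.val_mul, Units.val_mul, S.leib, mul_add, map_add]
  congr 1
  · rw [mul_assoc, S.comm, ← mul_assoc, mul_assoc, Units.mul_inv, mul_one]
  · rw [mul_assoc, ← mul_assoc ((u⁻¹ : Aˣ) : A), Units.inv_mul, one_mul]

theorem tr_pow (x : A) : ∀ n k : ℕ, S.tr (S.d (x ^ (n + 1)) * x ^ k) =
    (n + 1) • S.tr (x ^ (n + k) * S.d x) := by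
  intro n
  induction n with
  | zero =>
    intro k
    rw [zero_add, pow_one, zero_add, one_smul, S.comm]
  | succ n ih =>
    intro k
    have h1 : S.d (x ^ (n + 1 + 1)) * x ^ k =
        S.d (x ^ (n + 1)) * x ^ (k + 1) + x ^ (n + 1) * (S.d x * x ^ k) := by
      rw [pow_succ x (n + 1), S.leib, add_mul, mul_assoc, mul_assoc, ← pow_succ']
    have h2 : S.tr (x ^ (n + 1) * (S.d x * x ^ k)) = S.tr (x ^ (n + 1 + k) * S.d x) := by
      rw [← mul_assoc, S.comm, ← mul_assoc, ← pow_add, Nat.add_comm k (n + 1)]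
    rw [h1, map_add, ih, h2, ← Nat.add_assoc, Nat.add_right_comm n k 1, succ_nsmul _ (n + 1)]

theorem van_free (hΛ : ∀ (n : ℕ) (l : Λ), (n + 1) • l = 0 → l = 0) (x : A) (n : ℕ) :
    S.tr (x ^ n * S.d x) = 0 := by
  have h := S.tr_pow x n 0
  rw [pow_zero, mul_one, S.trd, add_zero] at h
  exact hΛ n _ h.symm

variable {B Λ' : Type} [Ring B] [AddCommGroup Λ'] (T : DT B Λ')

theorem van_of (hΛ : ∀ (n : ℕ) (l : Λ), (n + 1) • l = 0 → l = 0) (f : A →+* B)
    (hf : Function.Surjective f) (q : Λ →+ Λ') (hd : ∀ x, T.d (f x) = f (S.d x))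
    (ht : ∀ x, T.tr (f x) = q (S.tr x)) (x : B) (n : ℕ) : T.tr (x ^ n * T.d x) = 0 := by
  obtain ⟨y, rfl⟩ := hf x
  rw [hd, ← map_pow, ← map_mul, ht, S.van_free hΛ, map_zero]

theorem D_one_add (van : ∀ (x : B) (n : ℕ), T.tr (x ^ n * T.d x) = 0) (z : B) (hz : IsNilpotent z)
    (u : Bˣ) (hu : (u : B) = 1 + z) : T.D u = 0 := by
  obtain ⟨N, hN⟩ := hz
  have h1 : ((u⁻¹ : Bˣ) : B) = ∑ i ∈ Finset.range N, (-z) ^ i := by
    have h2 : (∑ i ∈ Finset.range N, (-z) ^ i) * (1 - -z) = 1 - (-z) ^ N := geom_sum_mul_neg _ _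
    rw [sub_neg_eq_add, ← hu, neg_pow, hN, mul_zero, sub_zero] at h2
    exact Units.inv_eq_of_mul_eq_one_left h2
  unfold D
  rw [h1, hu, map_add, T.d_one, zero_add, Finset.sum_mul, map_sum]
  refine Finset.sum_eq_zero fun i _ => ?_
  rcases Nat.even_or_odd i with hi | hi
  · rw [hi.neg_pow, van]
  · rw [hi.neg_pow, neg_mul, map_neg, van, neg_zero]

end DT

/-- a logarithmic derivative which descends to a quotient by a nil ideal -/
structure Stp (B C Λ : Type) [Ring B] [Ring C] [AddCommGroup Λ] where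
  /-- derivation and trace -/
  S : DT B Λ
  /-- the quotient map -/
  π : B →+* C
  surj : Function.Surjective π
  nil : ∀ z, π z = 0 → IsNilpotent z
  van : ∀ (x : B) (n : ℕ), S.tr (x ^ n * S.d x) = 0

namespace Stp

variable {B C Λ : Type} [Ring B] [Ring C] [AddCommGroup Λ] (P : Stp B C Λ)

theorem isUnit_of (x : B) (hx : IsUnit (P.π x)) : IsUnit x := by
  obtain ⟨u, hu⟩ := hx
  obtain ⟨y, hy⟩ := P.surj ((u⁻¹ : Cˣ) : C)
  have h1 : IsUnit (x * y) := by
    have : IsNilpotent (x * y - 1) := P.nil _ (by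
      rw [map_sub, map_mul, map_one, hy, ← hu, Units.mul_inv, sub_self])
    have h := this.isUnit_one_add
    rwa [add_sub_cancel] at h
  have h2 : IsUnit (y * x) := by
    have : IsNilpotent (y * x - 1) := P.nil _ (by
      rw [map_sub, map_mul, map_one, hy, ← hu, Units.inv_mul, sub_self])
    have h := this.isUnit_one_add
    rwa [add_sub_cancel] at h
  obtain ⟨v, hv⟩ := h1
  obtain ⟨w, hw⟩ := h2
  refine ⟨⟨x, y * ((v⁻¹ : Bˣ) : B), ?_, ?_⟩, rfl⟩
  · rw [← mul_assoc, ← hv, Units.mul_inv]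
  · have h3 : ((w⁻¹ : Bˣ) : B) * y = y * ((v⁻¹ : Bˣ) : B) := by
      have h4 : y * (v : B) = (w : B) * y := by rw [hv, hw, mul_assoc]
      calc ((w⁻¹ : Bˣ) : B) * y = ((w⁻¹ : Bˣ) : B) * (y * (v : B)) * ((v⁻¹ : Bˣ) : B) := by
            rw [mul_assoc, mul_assoc, Units.mul_inv, mul_one]
        _ = y * ((v⁻¹ : Bˣ) : B) := by
            rw [h4, ← mul_assoc, Units.inv_mul, one_mul]
    rw [← h3, mul_assoc, ← hw, Units.inv_mul]

theorem exists_lift (u : Cˣ) : ∃ v : Bˣ, P.π (v : B) = (u : C) := by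
  obtain ⟨x, hx⟩ := P.surj (u : C)
  obtain ⟨v, hv⟩ := P.isUnit_of x (hx ▸ u.isUnit)
  exact ⟨v, by rw [hv, hx]⟩

theorem D_congr (v w : Bˣ) (h : P.π (v : B) = P.π (w : B)) : P.S.D v = P.S.D w := by
  have h1 : P.S.D (v⁻¹ * w) = 0 := by
    apply P.S.D_one_add P.van ((v⁻¹ * w : Bˣ) - 1 : B)
    · apply P.nil
      rw [map_sub, map_one, Units.val_mul, map_mul, ← h, ← map_mul, Units.inv_mul, map_one, sub_self]
    · rw [add_sub_cancel]
  have h2 : P.S.D w = P.S.D v + P.S.D (v⁻¹ * w) := by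
    rw [← P.S.D_mul, mul_inv_cancel_left]
  rw [h2, h1, add_zero]

/-- the induced function on the units of the quotient -/
noncomputable def T (u : Cˣ) : Λ := P.S.D (P.exists_lift u).choose

theorem T_eq (u : Cˣ) (v : Bˣ) (h : P.π (v : B) = (u : C)) : P.T u = P.S.D v := by
  unfold T
  apply P.D_congr
  rw [h, (P.exists_lift u).choose_spec]

theorem T_mul (u v : Cˣ) : P.T (u * v) = P.T u + P.T v := by
  obtain ⟨u', hu⟩ := P.exists_lift u
  obtain ⟨v', hv⟩ := P.exists_lift v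
  rw [P.T_eq u u' hu, P.T_eq v v' hv, P.T_eq (u * v) (u' * v') (by
    rw [Units.val_mul, map_mul, hu, hv, Units.val_mul]), P.S.D_mul]

end Stp

end Pool.Agent.Y69.TP
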