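import Pool.Agent.Y69.TP.MainP

/-!
# The main theorem in characteristic `p`
-/

open Matrix

namespace Pool.Agent.Y69.TP

open H970SH H842 Pool.Agent.Y69 Pool.Agent.Y69.Main Pool.Agent.Y69.TK.Dsc
  Pool.Agent.Y69.TK.UnK Pool.Agent.Y69.TK.KMain Pool.Agent.Y69.StepC

noncomputable section

section sep

variable {p : ℕ} [hp : Fact p.Prime] {G : Type} [Group G]

open Classical in
/-- the total trace -/
def TT' (I : Inp p) {K : Type} [Field K] (j : K →+* I.K') (h : G → ℤ) :
    K1 (MonoidAlgebra K G) →+ I.Lam :=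
  if hh : ∀ x y, h (x * y) = h (y * x) then I.TT j hh else 0

/-- separation over a field with enough roots of unity in a finitely generated extension -/
theorem sepI (I : Inp p) {K : Type} [Field K] (j : K →+* I.K') {E : ℕ} (hE : 0 < E)
    (hEK : (E : K) ≠ 0) {ζ : I.K'} (hζ : IsPrimitiveRoot ζ E) {y : K1Colim K G}
    (hy : y ∈ SE K G E) (h0 : K1assembly K G y = 0) : ∃ k : ℕ, 0 < k ∧ k • y = 0 := by
  refine Theory.main (S := I.theory j hE hEK hζ) (G := G) (𝒜 := K1Colim K G)
    (fun {C} _ _ φ => sym K φ) ?_ (fun h => (TT' I j h).comp (K1assembly K G)) ?_ hy ?_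
  · intro C D _ _ _ _ φ ψ f g h u
    exact sym_map K φ ψ f g h u
  · intro h hh C _ _ hC φ u
    have h1 : ∀ u : Additive (MonoidAlgebra K C)ˣ, TT' I j h (K1assembly K G (sym K φ u)) =
        ∑ c, I.bb j u c * ((h (φ c) : ℤ) : I.Lam) := by
      intro u
      unfold TT'
      rw [dif_pos hh, assembly_sym, ← K1map_cl, I.TT_map j φ hh (fun x y => by
        rw [map_mul, map_mul, hh]), I.TT_sum]
      rfl
    exact h1 u
  · intro h hh
    show TT' I j h (K1assembly K G y) = 0
    rw [h0, map_zero]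

/-- the cyclotomic extension -/
theorem exists_inp (K : Type) [Field K] [CharP K p] (S : Finset K)
    (hS : Subfield.closure (S : Set K) = ⊤) {E : ℕ} (hE : 0 < E) (hEK : (E : K) ≠ 0) :
    ∃ (I : Inp p) (_ : K →+* I.K') (ζ : I.K'), IsPrimitiveRoot ζ E := by
  classical
  have h1 : NeZero ((E : ℕ) : K) := ⟨hEK⟩
  have h2 : NeZero E := ⟨hE.ne'⟩
  let K' := CyclotomicField E K
  have : CharP K' p := charP_of_injective_algebraMap (algebraMap K K').injective p
  let ζ : K' := IsCyclotomicExtension.zeta E K K'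
  have hζ : IsPrimitiveRoot ζ E := IsCyclotomicExtension.zeta_spec E K K'
  have htop : Algebra.adjoin K {ζ} = ⊤ := IsCyclotomicExtension.adjoin_primitive_root_eq_top hζ
  refine ⟨{ K' := K', S := insert ζ (S.image (algebraMap K K')), hS := ?_ }, algebraMap K K', ζ, hζ⟩
  rw [eq_top_iff]
  intro x _
  have hx : x ∈ Algebra.adjoin K {ζ} := by rw [htop]; exact Algebra.mem_top
  have hK : ∀ r : K, algebraMap K K' r ∈
      Subfield.closure ((insert ζ (S.image (algebraMap K K')) : Finset K') : Set K') := by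
    intro r
    have h3 : (Subfield.closure (S : Set K)).map (algebraMap K K') ≤
        Subfield.closure ((insert ζ (S.image (algebraMap K K')) : Finset K') : Set K') := by
      rw [RingHom.map_field_closure]
      apply Subfield.closure_mono
      rw [Finset.coe_insert, Finset.coe_image]
      exact Set.subset_insert _ _
    apply h3
    rw [hS]
    exact ⟨r, Subfield.mem_top r, rfl⟩
  induction hx using Algebra.adjoin_induction with
  | mem y hy =>
    rw [Set.mem_singleton_iff] at hy
    rw [hy]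
    exact Subfield.subset_closure (by rw [Finset.coe_insert]; exact Set.mem_insert _ _)
  | algebraMap r => exact hK r
  | add a b _ _ ha hb => exact Subfield.add_mem _ (ha trivial) (hb trivial)
  | mul a b _ _ ha hb => exact Subfield.mul_mem _ (ha trivial) (hb trivial)

theorem sepK (K : Type) [Field K] [CharP K p] (S : Finset K)
    (hS : Subfield.closure (S : Set K) = ⊤) {E : ℕ} (hE : ¬ p ∣ E) {y : K1Colim K G}
    (hy : y ∈ SE K G E) (h0 : K1assembly K G y = 0) : ∃ k : ℕ, 0 < k ∧ k • y = 0 := by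
  have hE0 : 0 < E := Nat.pos_of_ne_zero (by rintro rfl; exact hE (dvd_zero p))
  have hEK : (E : K) ≠ 0 := fun h => hE ((CharP.cast_eq_zero_iff K p E).1 h)
  obtain ⟨I, j, ζ, hζ⟩ := exists_inp (p := p) K S hS hE0 hEK
  exact sepI I j hE0 hEK hζ hy h0

end sep

/-- the abstract main theorem -/
theorem main_sysP {k : Type} [Field k] (p : ℕ) [hp : Fact p.Prime] [CharP k p] {G : Type} [Group G]
    (S : Sys k)
    (hS : ∀ (s : Finset k) (E : ℕ), ¬ p ∣ E → ∀ y ∈ SE (S.A s) G E,
      K1assembly (S.A s) G y = 0 → ∃ l : ℕ, 0 < l ∧ l • y = 0)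
    (x : K1Colim k G) (n : ℕ) (hn : 0 < n) (hx : n • K1assembly k G x = 0) :
    ∃ l : ℕ, 0 < l ∧ l • x = 0 := by
  obtain ⟨m, E, hm, hE, h1⟩ := covP_all p x
  obtain ⟨s, y, hy, hyx⟩ := (ev_SE S G h1).exists
  have h2 : K1map (inc S G s) (n • K1assembly (S.A s) G y) = 0 := by
    rw [map_nsmul]
    have h3 := assembly_cmap (S.inA s) y
    rw [hyx, map_nsmul] at h3
    show n • K1map (MonoidAlgebra.mapRingHom G (S.inA s)) _ = 0
    rw [← h3, smul_smul, mul_comm, mul_smul, hx, smul_zero]
  obtain ⟨t, hst, ht⟩ := descend S G s _ h2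
  have h4 : n • cmap (S.inAA hst) y ∈ SE (S.A t) G E :=
    AddSubgroup.nsmul_mem _ (cmap_SE _ hy) n
  obtain ⟨l, hl, h5⟩ := hS t E hE _ h4 (by
    rw [map_nsmul, assembly_cmap, ← map_nsmul, ht])
  have h6 := congrArg (cmap (S.inA t)) h5
  rw [map_nsmul, map_nsmul, map_zero, cmap_cmap, S.comp hst, hyx] at h6
  refine ⟨l * n * m, Nat.mul_pos (Nat.mul_pos hl hn) hm, ?_⟩
  rw [mul_smul, mul_smul]
  exact h6

section sys

variable (k : Type) [Field k]

/-- a finitely generated subfield -/
def AF (s : Finset k) : Type := Subfield.closure (s : Set k)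

instance (s : Finset k) : Field (AF k s) :=
  inferInstanceAs (Field (Subfield.closure (s : Set k)))

/-- the inclusion -/
def inF (s : Finset k) : AF k s →+* k := (Subfield.closure (s : Set k)).subtype

theorem inF_inj (s : Finset k) : Function.Injective (inF k s) := Subtype.val_injective

theorem inF_mem (s : Finset k) (c : k) (hc : c ∈ s) : ∃ a, inF k s a = c :=
  ⟨⟨c, Subfield.subset_closure (Finset.mem_coe.2 hc)⟩, rfl⟩

theorem inF_mem2 {s t : Finset k} (h : s ≤ t) (x : AF k s) : ∃ y : AF k t, inF k t y = inF k s x :=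
  ⟨⟨x.1, Subfield.closure_mono (Finset.coe_subset.2 h) x.2⟩, rfl⟩

/-- the system of finitely generated subfields -/
def ffSys : Sys k where
  A s := AF k s
  ring s := inferInstance
  inA s := inF k s
  inj s := inF_inj k s
  mem s c hc := inF_mem k s c hc
  inAA {s t} h := fac (inF k s) (inF k t) (inF_inj k t) (inF_mem2 k h)
  comp {s t} h := fac_comp (inF k s) (inF k t) (inF_inj k t) (inF_mem2 k h)

/-- the generators -/
def genF (s : Finset k) (c : {x // x ∈ s}) : AF k s :=
  ⟨c.1, Subfield.subset_closure (Finset.mem_coe.2 c.2)⟩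

theorem AF_fg (s : Finset k) : ∃ S : Finset (AF k s), Subfield.closure (S : Set (AF k s)) = ⊤ := by
  classical
  refine ⟨s.attach.image (genF k s), ?_⟩
  have h1 : (fun x : {x // x ∈ s} => inF k s (genF k s x)) '' (s.attach : Set {x // x ∈ s}) =
      (s : Set k) := by
    ext x
    constructor
    · rintro ⟨⟨y, hy⟩, _, rfl⟩
      exact hy
    · intro hx
      exact ⟨⟨x, hx⟩, Finset.mem_coe.2 (Finset.mem_attach _ _), rfl⟩
  rw [eq_top_iff]
  intro x _
  have h2 : inF k s x ∈ (Subfield.closure ((s.attach.image (genF k s) : Finset (AF k s)) :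
      Set (AF k s))).map (inF k s) := by
    rw [RingHom.map_field_closure, Finset.coe_image, Set.image_image, h1]
    exact x.2
  obtain ⟨y, hy, hyx⟩ := h2
  rw [← inF_inj k s hyx]
  exact hy

end sys

/-- **Theorem.** For every group `G` and every field `k` of characteristic `p > 0`, an element of
`colim K₁(k[H])` whose image in `K₁(k[G])` is torsion is torsion. -/
theorem main_fieldP (k : Type) [Field k] (p : ℕ) [hp : Fact p.Prime] [CharP k p] {G : Type}
    [Group G] (x : K1Colim k G) (n : ℕ) (hn : 0 < n) (hx : n • K1assembly k G x = 0) :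
    ∃ l : ℕ, 0 < l ∧ l • x = 0 := by
  refine main_sysP p (ffSys k) ?_ x n hn hx
  intro s E hE y hy h0
  obtain ⟨S, hS⟩ := AF_fg k s
  have : CharP (AF k s) p := (inF k s).charP (inF_inj k s) p
  exact sepK (p := p) (G := G) (AF k s) S hS hE hy h0

end

end Pool.Agent.Y69.TP
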