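import Pool.Agent.Y69.TP.Lau

/-!
# Embeddings of finitely generated fields into matrices over Laurent series
-/

namespace Pool.Agent.Y69.TP

open Matrix

noncomputable section

/-- embedding data -/
structure Fd (p : ℕ) (K' : Type) [Field K'] (a : K') where
  /-- the residue field -/
  κ : Type
  [fld : Field κ]
  [char : CharP κ p]
  [perf : PerfectRing κ p]
  /-- the dimension -/
  n : ℕ
  pos : 0 < n
  /-- the embedding -/
  ρ : K' →+* Matrix (Fin n) (Fin n) (L κ)
  ρa : ρ a = (HahnSeries.single (1 : ℤ) (1 : κ) : L κ) • (1 : Matrix (Fin n) (Fin n) (L κ))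
  ρc : ∀ x : K', (∃ N, 0 < N ∧ x ^ N = 1) →
    ∃ w : κ, ρ x = (HahnSeries.C w : L κ) • (1 : Matrix (Fin n) (Fin n) (L κ))

attribute [instance] Fd.fld Fd.char

theorem isAlgebraic_of_hom {E1 E2 K : Type} [Field E1] [Field E2] [Field K] [Algebra E1 K]
    [Algebra E2 K] (i : E1 →+* E2) (h : ∀ x, algebraMap E2 K (i x) = algebraMap E1 K x) {x : K}
    (hx : IsAlgebraic E1 x) : IsAlgebraic E2 x := by
  obtain ⟨P, hP, h0⟩ := hx
  refine ⟨P.map i, (Polynomial.map_ne_zero_iff i.injective).2 hP, ?_⟩
  rw [Polynomial.aeval_def, Polynomial.eval₂_map]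
  have : (algebraMap E2 K).comp i = algebraMap E1 K := RingHom.ext h
  rw [this, ← Polynomial.aeval_def, h0]

theorem transcendental_of (p : ℕ) [hp : Fact p.Prime] (K' : Type) [Field K'] [Algebra (ZMod p) K']
    (a : K') (ha : ∀ N, 0 < N → a ^ N ≠ 1) (ha0 : a ≠ 0) : Transcendental (ZMod p) a := by
  intro h
  have h1 : IsIntegral (ZMod p) a := h.isIntegral
  have h2 : FiniteDimensional (ZMod p) (IntermediateField.adjoin (ZMod p) {a}) :=
    IntermediateField.adjoin.finiteDimensional h1
  have h3 : Finite (IntermediateField.adjoin (ZMod p) {a}) := Module.finite_of_finite (ZMod p)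
  let b : IntermediateField.adjoin (ZMod p) {a} := IntermediateField.AdjoinSimple.gen (ZMod p) a
  have hb : b ≠ 0 := by
    intro h
    exact ha0 (congrArg Subtype.val h)
  obtain ⟨N, hN, h4⟩ := (isOfFinOrder_iff_pow_eq_one.1 (isOfFinOrder_of_finite (Units.mk0 b hb)))
  apply ha N hN
  have h5 := congrArg (fun u : (IntermediateField.adjoin (ZMod p) {a})ˣ => ((u :
    IntermediateField.adjoin (ZMod p) {a}) : K')) h4
  have h6 : (b : K') ^ N = 1 := by simpa using h5
  exact h6

/-- the field theoretic input -/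
theorem exists_tower (p : ℕ) [hp : Fact p.Prime] (K' : Type) [Field K'] [CharP K' p] (S : Finset K')
    (hS : Subfield.closure (S : Set K') = ⊤) (a : K') (ha : ∀ N, 0 < N → a ^ N ≠ 1) (ha0 : a ≠ 0) :
    ∃ (κ₀ : Subfield K'), (∀ x : K', (∃ N, 0 < N ∧ x ^ N = 1) → x ∈ κ₀) ∧
      Transcendental κ₀ a ∧ FiniteDimensional (IntermediateField.adjoin κ₀ {a}) K' := by
  let _ : Algebra (ZMod p) K' := ZMod.algebra K' p
  have htr := transcendental_of p K' a ha ha0
  have h1 : AlgebraicIndepOn (ZMod p) id ({a} : Set K') :=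
    algebraicIndependent_unique_type_iff.2 htr
  obtain ⟨B, haB, hB⟩ := exists_isTranscendenceBasis_superset h1
  have haB' : a ∈ B := haB rfl
  have h2 : insert a (B \ {a}) = B := by
    rw [Set.insert_sdiff_singleton, Set.insert_eq_of_mem haB']
  have h3 : AlgebraicIndepOn (ZMod p) id (insert a (B \ {a})) := by
    rw [h2]
    exact hB.1
  have h4 := ((AlgebraicIndepOn.insert_iff (by simp)).1 h3).2
  rw [Set.image_id, id_eq] at h4
  let F := IntermediateField.adjoin (ZMod p) (B \ {a})
  have h5 : Transcendental F a := by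
    intro h
    apply h4
    open IntermediateField.algebraAdjoinAdjoin in
    exact (IsFractionRing.isAlgebraic_iff (Algebra.adjoin (ZMod p) (B \ {a})) F K').2 h
  let κ₁ : IntermediateField F K' := algebraicClosure F K'
  have h6 : Transcendental κ₁ a := by
    intro h
    exact h5 (h.restrictScalars F)
  refine ⟨κ₁.toSubfield, ?_, h6, ?_⟩
  · rintro x ⟨N, hN, hx⟩
    show x ∈ algebraicClosure F K'
    rw [mem_algebraicClosure_iff]
    refine ⟨Polynomial.X ^ N - 1, Polynomial.X_pow_sub_C_ne_zero hN 1, ?_⟩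
    simp [hx]
  · show FiniteDimensional (IntermediateField.adjoin κ₁ {a}) K'
    let E2 := IntermediateField.adjoin κ₁ {a}
    have h7 := hB.isAlgebraic_field
    rw [Subtype.range_coe] at h7
    have h8 : ∀ x ∈ IntermediateField.adjoin (ZMod p) B, x ∈ E2 := by
      intro x hx
      have h9 : (IntermediateField.adjoin (ZMod p) B).toSubfield ≤ E2.toSubfield := by
        rw [IntermediateField.adjoin_toSubfield, Subfield.closure_le]
        rintro y (⟨z, rfl⟩ | hy)
        · obtain ⟨n, rfl⟩ := ZMod.natCast_zmod_surjective z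
          rw [map_natCast]
          exact natCast_mem E2 n
        · by_cases hya : y = a
          · rw [hya]
            exact IntermediateField.mem_adjoin_simple_self κ₁ a
          · have h10 : y ∈ F := IntermediateField.subset_adjoin _ _ ⟨hy, hya⟩
            have h11 : y ∈ κ₁ := κ₁.algebraMap_mem ⟨y, h10⟩
            exact E2.algebraMap_mem ⟨y, h11⟩
      exact h9 hx
    let i : IntermediateField.adjoin (ZMod p) B →+* E2 :=
      { toFun := fun x => ⟨x, h8 x x.2⟩
        map_one' := rfl
        map_mul' := fun _ _ => rfl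
        map_zero' := rfl
        map_add' := fun _ _ => rfl }
    have h12 : ∀ x : K', IsAlgebraic E2 x := fun x =>
      isAlgebraic_of_hom i (fun _ => rfl) (h7.isAlgebraic x)
    have h13 : FiniteDimensional E2 (IntermediateField.adjoin E2 (S : Set K')) :=
      IntermediateField.finiteDimensional_adjoin fun x _ => (h12 x).isIntegral
    have h14 : IntermediateField.adjoin E2 (S : Set K') = ⊤ := by
      rw [eq_top_iff]
      intro x _
      have h15 : Subfield.closure (S : Set K') ≤
          (IntermediateField.adjoin E2 (S : Set K')).toSubfield := by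
        rw [Subfield.closure_le]
        exact IntermediateField.subset_adjoin _ _
      apply h15
      rw [hS]
      exact Subfield.mem_top x
    rw [h14] at h13
    exact LinearEquiv.finiteDimensional (IntermediateField.topEquiv (F := E2) (E := K')).toLinearEquiv

open scoped RatFunc in
theorem coe_const (F : Type) [Field F] (c : F) : algebraMap (RatFunc F) (LaurentSeries F)
    (algebraMap F (RatFunc F) c) = HahnSeries.C c := by
  rw [IsScalarTower.algebraMap_apply F (Polynomial F) (RatFunc F),
    ← IsScalarTower.algebraMap_apply (Polynomial F) (RatFunc F) (LaurentSeries F)]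
  rw [Polynomial.algebraMap_hahnSeries_apply]
  simp

open scoped RatFunc in
theorem exists_Fd (p : ℕ) [hp : Fact p.Prime] (K' : Type) [Field K'] [CharP K' p] (S : Finset K')
    (hS : Subfield.closure (S : Set K') = ⊤) (a : K') (ha : ∀ N, 0 < N → a ^ N ≠ 1) (ha0 : a ≠ 0) :
    Nonempty (Fd p K' a) := by
  obtain ⟨κ₀, h1, h2, h3⟩ := exists_tower p K' S hS a ha ha0
  let κ := AlgebraicClosure κ₀
  have : CharP κ₀ p := (algebraMap κ₀ K').charP (algebraMap κ₀ K').injective p
  have : CharP κ p := charP_of_injective_algebraMap (algebraMap κ₀ κ).injective p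
  have : PerfectField κ := inferInstance
  have : PerfectRing κ p := PerfectField.toPerfectRing p
  let E2 := IntermediateField.adjoin κ₀ {a}
  let e := RatFunc.algEquivOfTranscendental (K := κ₀) a h2
  let σ : E2 →+* L κ := (Lm (algebraMap κ₀ κ)).comp
    ((algebraMap (RatFunc κ₀) (LaurentSeries κ₀)).comp (e.symm : E2 →+* RatFunc κ₀))
  let b := Module.finBasis E2 K'
  let ρ : K' →+* Matrix (Fin (Module.finrank E2 K')) (Fin (Module.finrank E2 K')) (L κ) :=
    σ.mapMatrix.comp (Algebra.leftMulMatrix b).toRingHom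
  have hρ : ∀ x : E2, ρ (algebraMap E2 K' x) = σ x • 1 := by
    intro x
    show σ.mapMatrix (Algebra.leftMulMatrix b (algebraMap E2 K' x)) = _
    rw [AlgHom.commutes]
    ext i j : 1
    show σ ((algebraMap E2 (Matrix _ _ E2) x) i j) = _
    rw [Matrix.algebraMap_matrix_apply, Matrix.smul_apply]
    by_cases hij : i = j
    · subst hij
      rw [if_pos rfl, Matrix.one_apply_eq, smul_eq_mul, mul_one]
      rfl
    · rw [if_neg hij, Matrix.one_apply_ne hij, smul_zero, map_zero]
  refine ⟨{ κ := κ, n := Module.finrank E2 K', pos := Module.finrank_pos, ρ := ρ, ρa := ?_, ρc := ?_ }⟩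
  · have h4 := hρ (IntermediateField.AdjoinSimple.gen κ₀ a)
    have h5 : σ (IntermediateField.AdjoinSimple.gen κ₀ a) = HahnSeries.single (1 : ℤ) (1 : κ) := by
      show Lm (algebraMap κ₀ κ) (algebraMap (RatFunc κ₀) (LaurentSeries κ₀)
        (e.symm (IntermediateField.AdjoinSimple.gen κ₀ a))) = _
      rw [RatFunc.algEquivOfTranscendental_symm_gen, RatFunc.coe_X, Lm_X]
    rw [h5] at h4
    exact h4
  · intro x hx
    refine ⟨algebraMap κ₀ κ ⟨x, h1 x hx⟩, ?_⟩
    have h4 := hρ (algebraMap κ₀ E2 ⟨x, h1 x hx⟩)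
    have h5 : σ (algebraMap κ₀ E2 ⟨x, h1 x hx⟩) = HahnSeries.C (algebraMap κ₀ κ ⟨x, h1 x hx⟩) := by
      show Lm (algebraMap κ₀ κ) (algebraMap (RatFunc κ₀) (LaurentSeries κ₀)
        (e.symm (algebraMap κ₀ E2 ⟨x, h1 x hx⟩))) = _
      rw [AlgEquiv.commutes, coe_const]
      exact Lm_C _ _
    rw [h5] at h4
    exact h4

end

end Pool.Agent.Y69.TP
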