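import Pool.Agent.Y69.TK.KDef
import Pool.Agent.Y69.TP.FinP

/-!
# The main theorem in characteristic `p` for the groups of `KDef`
-/

namespace Pool.Agent.Y69.FJK

theorem mainP (k G : Type) [Field k] (p : ℕ) (hp : p.Prime) [CharP k p] [Group G]
    (x : ColimK1 k G) (n : ℕ) (hn : 0 < n) (hx : n • assembly k G x = 0) :
    ∃ l : ℕ, 0 < l ∧ l • x = 0 :=
  have : Fact p.Prime := ⟨hp⟩
  Pool.Agent.Y69.TP.main_fieldP (G := G) k p x n hn hx

end Pool.Agent.Y69.FJK
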