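import Mathlib

/-!
# Laurent series: the derivation `X d/dX`, the constant term, change of coefficients
-/

namespace Pool.Agent.Y69.TP

open HahnSeries

noncomputable section

/-- Laurent series -/
abbrev L (R : Type) [CommRing R] : Type := HahnSeries ℤ R

variable {R R' R'' : Type} [CommRing R] [CommRing R'] [CommRing R'']

/-- the derivation `X d/dX` -/
def th : L R →+ L R where
  toFun f :=
    { coeff := fun n => (n : R) * f.coeff n
      isPWO_support' := f.isPWO_support.mono (by
        intro n hn
        rw [Function.mem_support] at hn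
        rw [mem_support]
        intro h
        apply hn
        rw [h, mul_zero]) }
  map_zero' := by
    ext n
    simp
  map_add' f g := by
    ext n
    simp [mul_add]

theorem th_coeff (f : L R) (n : ℤ) : (th f).coeff n = (n : R) * f.coeff n := rfl

theorem th_support (f : L R) : (th f).support ⊆ f.support := by
  intro n hn
  rw [mem_support] at hn ⊢
  intro h
  apply hn
  rw [th_coeff, h, mul_zero]

theorem th_mul (f g : L R) : th (f * g) = th f * g + f * th g := by
  ext n
  rw [th_coeff, coeff_add, coeff_mul, coeff_mul_left' f.isPWO_support (th_support f),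
    coeff_mul_right' g.isPWO_support (th_support g), Finset.mul_sum, ← Finset.sum_add_distrib]
  apply Finset.sum_congr rfl
  intro ij hij
  have h : ij.1 + ij.2 = n := (Finset.mem_addAntidiagonal.1 hij).2.2
  rw [th_coeff, th_coeff, ← h]
  push_cast
  ring

/-- the constant term -/
def CT : L R →+ R where
  toFun f := f.coeff 0
  map_zero' := rfl
  map_add' f g := rfl

theorem CT_th (f : L R) : CT (th f) = 0 := by
  show (th f).coeff 0 = 0
  rw [th_coeff, Int.cast_zero, zero_mul]

theorem CT_C_mul (a : R) (f : L R) : CT (C a * f) = a * CT f := by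
  show (C a * f).coeff 0 = a * f.coeff 0
  rw [C_mul_eq_smul]
  rfl

theorem CT_one : CT (1 : L R) = 1 := by
  show (1 : L R).coeff 0 = 1
  rw [coeff_one, if_pos rfl]

theorem th_C (a : R) : th (C a : L R) = 0 := by
  ext n
  rw [th_coeff]
  by_cases hn : n = 0
  · rw [hn, Int.cast_zero, zero_mul]; rfl
  · have : (C a : L R).coeff n = 0 := coeff_single_of_ne hn
    rw [this, mul_zero]; rfl

theorem th_X : th (single (1 : ℤ) (1 : R)) = single 1 1 := by
  ext n
  rw [th_coeff]
  by_cases hn : n = 1
  · rw [hn, Int.cast_one, one_mul]
  · rw [coeff_single_of_ne hn, mul_zero]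

/-- the variable as a unit -/
def Xu (R : Type) [CommRing R] : (L R)ˣ where
  val := single 1 1
  inv := single (-1) 1
  val_inv := by
    rw [single_mul_single, one_mul]; rfl
  inv_val := by
    rw [single_mul_single, one_mul]; rfl

/-- change of coefficients -/
def Lm (f : R →+* R') : L R →+* L R' where
  toFun x := x.map f
  map_one' := by
    ext n
    show f ((1 : L R).coeff n) = _
    rw [coeff_one, coeff_one]
    split_ifs
    · exact map_one f
    · exact map_zero f
  map_mul' x y := HahnSeries.map_mul (f : R →ₙ+* R')
  map_zero' := by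
    ext n
    exact map_zero f
  map_add' x y := by
    ext n
    exact map_add f _ _

theorem Lm_coeff (f : R →+* R') (x : L R) (n : ℤ) : (Lm f x).coeff n = f (x.coeff n) := rfl

theorem Lm_th (f : R →+* R') (x : L R) : Lm f (th x) = th (Lm f x) := by
  ext n
  rw [Lm_coeff, th_coeff, th_coeff, map_mul, map_intCast, Lm_coeff]

theorem Lm_CT (f : R →+* R') (x : L R) : f (CT x) = CT (Lm f x) := rfl

theorem Lm_C (f : R →+* R') (a : R) : Lm f (C a) = C (f a) := by
  ext n
  rw [Lm_coeff]
  by_cases hn : n = 0
  · subst hn
    have h1 : (C a : L R).coeff 0 = a := coeff_single_same 0 a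
    have h2 : (C (f a) : L R').coeff 0 = f a := coeff_single_same 0 (f a)
    rw [h1, h2]
  · have h1 : (C a : L R).coeff n = 0 := coeff_single_of_ne hn
    have h2 : (C (f a) : L R').coeff n = 0 := coeff_single_of_ne hn
    rw [h1, h2, map_zero]

theorem Lm_X (f : R →+* R') : Lm f (single (1 : ℤ) (1 : R)) = single 1 1 := by
  ext n
  rw [Lm_coeff]
  by_cases hn : n = 1
  · subst hn; rw [coeff_single_same, coeff_single_same, map_one]
  · rw [coeff_single_of_ne hn, coeff_single_of_ne hn, map_zero]

theorem Lm_comp (f : R →+* R') (g : R' →+* R'') (x : L R) : Lm g (Lm f x) = Lm (g.comp f) x := rfl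

theorem Lm_surj (f : R →+* R') (hf : Function.Surjective f) : Function.Surjective (Lm f) := by
  classical
  intro y
  choose s hs using hf
  refine ⟨{ coeff := fun n => if y.coeff n = 0 then 0 else s (y.coeff n)
            isPWO_support' := y.isPWO_support.mono ?_ }, ?_⟩
  · intro n hn
    rw [Function.mem_support] at hn
    rw [mem_support]
    intro h
    exact hn (if_pos h)
  · ext n
    rw [Lm_coeff]
    show f (if y.coeff n = 0 then 0 else s (y.coeff n)) = _
    split_ifs with h
    · rw [map_zero, h]
    · exact hs _

theorem Lm_ker (f : R →+* R') (a : R) (hf : ∀ x, f x = 0 → ∃ y, x = a * y) (x : L R)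
    (hx : Lm f x = 0) : ∃ y, x = C a * y := by
  classical
  have h1 : ∀ n, ∃ y, x.coeff n = a * y := fun n => hf _ (by rw [← Lm_coeff, hx]; rfl)
  choose s hs using h1
  refine ⟨{ coeff := fun n => if x.coeff n = 0 then 0 else s n
            isPWO_support' := x.isPWO_support.mono ?_ }, ?_⟩
  · intro n hn
    rw [Function.mem_support] at hn
    rw [mem_support]
    intro h
    exact hn (if_pos h)
  · ext n
    rw [C_mul_eq_smul]
    show x.coeff n = a * (if x.coeff n = 0 then 0 else s n)
    split_ifs with h
    · rw [mul_zero, h]
    · exact hs n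

end

end Pool.Agent.Y69.TP
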