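import Pool.Agent.Y69.TP.Trc

/-!
# Lifting data from Witt vectors
-/

namespace Pool.Agent.Y69.TP

noncomputable section

variable (p : ℕ) [hp : Fact p.Prime] (κ : Type) [Field κ] [CharP κ p]

theorem witt_natCast_ne_zero (n : ℕ) (hn : n ≠ 0) : (n : WittVector p κ) ≠ 0 := by
  obtain ⟨v, m, hm, rfl⟩ := Nat.exists_eq_pow_mul_and_not_dvd hn p hp.out.ne_one
  rw [Nat.cast_mul, Nat.cast_pow]
  apply mul_ne_zero
  · exact pow_ne_zero _ (WittVector.p_nonzero p κ)
  · intro h
    apply hm
    have h1 := congrArg (WittVector.constantCoeff (p := p)) h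
    rw [map_natCast, map_zero] at h1
    exact (CharP.cast_eq_zero_iff κ p m).1 h1

variable [PerfectRing κ p]

/-- truncated Witt vectors -/
abbrev Wn (m : ℕ) : Type := WittVector p κ ⧸ Ideal.span {((p : WittVector p κ) ^ (m + 1))}

theorem constantCoeff_p : WittVector.constantCoeff (p : WittVector p κ) = (0 : κ) := by
  rw [map_natCast]
  exact CharP.cast_eq_zero κ p

/-- the residue map -/
def rs (m : ℕ) : Wn p κ m →+* κ :=
  Ideal.Quotient.lift _ (WittVector.constantCoeff (p := p) (R := κ)) (by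
    intro a ha
    obtain ⟨b, rfl⟩ := Ideal.mem_span_singleton.1 ha
    rw [map_mul, map_pow, constantCoeff_p, zero_pow (Nat.succ_ne_zero m), zero_mul])

theorem rs_mk (m : ℕ) (a : WittVector p κ) :
    rs p κ m (Ideal.Quotient.mk _ a) = WittVector.constantCoeff a := rfl

/-- the lifting data -/
def cf (m : ℕ) : Cf (WittVector p κ) (Wn p κ m) κ where
  q := Ideal.Quotient.mk _
  f := rs p κ m
  hq := Ideal.Quotient.mk_surjective
  hf := by
    intro x
    obtain ⟨a, ha⟩ := WittVector.constantCoeff_surjective p (R := κ) x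
    exact ⟨Ideal.Quotient.mk _ a, ha⟩
  tf := by
    intro n l h
    rw [nsmul_eq_mul] at h
    rcases mul_eq_zero.1 h with h | h
    · exact absurd h (witt_natCast_ne_zero p κ (n + 1) (Nat.succ_ne_zero n))
    · exact h
  P := Ideal.Quotient.mk _ (p : WittVector p κ)
  N := m + 1
  hP := by
    rw [← map_pow, Ideal.Quotient.eq_zero_iff_mem]
    exact Ideal.mem_span_singleton_self _
  ker := by
    intro x hx
    obtain ⟨a, rfl⟩ := Ideal.Quotient.mk_surjective x
    rw [rs_mk] at hx
    have h1 : a ∈ RingHom.ker (WittVector.constantCoeff (p := p) (R := κ)) := hx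
    rw [WittVector.ker_constantCoeff] at h1
    obtain ⟨b, rfl⟩ := Ideal.mem_span_singleton.1 h1
    exact ⟨Ideal.Quotient.mk _ b, map_mul _ _ _⟩

/-- Teichmuller lifts -/
def tei (m : ℕ) : κ →* Wn p κ m :=
  (Ideal.Quotient.mk (Ideal.span {((p : WittVector p κ) ^ (m + 1))})).toMonoidHom.comp
    (WittVector.teichmuller p)

theorem rs_tei (m : ℕ) (x : κ) : (cf p κ m).f (tei p κ m x) = x := by
  show rs p κ m (Ideal.Quotient.mk _ (WittVector.teichmuller p x)) = x
  rw [rs_mk]
  exact WittVector.teichmuller_coeff_zero p x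

theorem exists_natCast_ne_zero (d : ℕ) (hd : d ≠ 0) : ∃ m, (d : Wn p κ m) ≠ 0 := by
  by_contra h
  push Not at h
  apply witt_natCast_ne_zero p κ d hd
  ext n
  have h1 := h n
  rw [← map_natCast (Ideal.Quotient.mk (Ideal.span {((p : WittVector p κ) ^ (n + 1))})),
    Ideal.Quotient.eq_zero_iff_mem, WittVector.mem_span_p_pow_iff_le_coeff_eq_zero] at h1
  rw [h1 n (Nat.lt_succ_self n), WittVector.zero_coeff]

end

end Pool.Agent.Y69.TP
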