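import Pool.Agent.Y69.TP.Tht
import Pool.Agent.Y69.TP.Wit
import Pool.Agent.Y69.TP.FldP
import Pool.Agent.Y69.StepC
import Pool.Agent.Y69.Thy
import Pool.Agent.Y69.TK.UnK

/-!
# The theory of units of group rings over finitely generated fields of characteristic `p`
-/

namespace Pool.Agent.Y69.TP

open Matrix H970SH H842 Pool.Agent.Y69 Pool.Agent.Y69.StepC

noncomputable section

/-- characters separate the elements of the group ring -/
theorem evc_inj {K K' : Type} [Field K] [Field K'] (j : K →+* K') {C : Type} [CommGroup C] [Finite C]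
    {E : ℕ} (hE : 0 < E) {ζ : K'} (hζ : IsPrimitiveRoot ζ E) (hC : Nat.card C ∣ E)
    (w : MonoidAlgebra K C)
    (hw : ∀ χ : C →* K'ˣ, evc j ((Units.coeHom K').comp χ) w = 0) : w = 0 := by
  classical
  have := Fintype.ofFinite C
  have hexp : Monoid.exponent C ∣ E := (Group.exponent_dvd_nat_card).trans hC
  obtain ⟨t, ht⟩ := hexp
  have hpos : 0 < Monoid.exponent C := Monoid.exponent_pos_of_exists (Nat.card C) Nat.card_pos
    (fun g => pow_card_eq_one')
  have henough : HasEnoughRootsOfUnity K' (Monoid.exponent C) :=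
    { prim := ⟨ζ ^ t, hζ.pow hE (by rw [ht, mul_comm])⟩
      cyc := by
        have : NeZero (Monoid.exponent C) := ⟨hpos.ne'⟩
        exact rootsOfUnity.isCyclic K' _ }
  obtain ⟨e⟩ := CommGroup.monoidHom_mulEquiv_of_hasEnoughRootsOfUnity C K'
  have : Fintype (C →* K'ˣ) := Fintype.ofEquiv C e.symm.toEquiv
  have h1 : LinearIndependent K' (fun f : C →* K' => (f : C → K')) := linearIndependent_monoidHom C K'
  have h2 : LinearIndependent K'
      (fun χ : C →* K'ˣ => (((Units.coeHom K').comp χ : C →* K') : C → K')) := by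
    refine h1.comp (fun χ : C →* K'ˣ => (Units.coeHom K').comp χ) ?_
    intro χ χ' h
    ext c
    exact congrArg (fun f : C →* K' => f c) h
  have h3 := h2.span_eq_top_of_card_eq_finrank' (by
    rw [Module.finrank_fintype_fun_eq_card]
    exact Fintype.card_congr e.toEquiv)
  let φ : (C → K') →ₗ[K'] K' := ∑ c, (j (w.coeff c)) • LinearMap.proj c
  have hφ : ∀ f, φ f = ∑ c, j (w.coeff c) * f c := by
    intro f
    simp [φ, LinearMap.sum_apply]
  have hev : ∀ (χ : C →* K'), evc j χ w = ∑ c, j (w.coeff c) * χ c := by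
    intro χ
    clear hw hφ
    clear φ
    induction w using MonoidAlgebra.induction_linear with
    | zero => simp
    | add a b ha hb =>
      rw [map_add, ha, hb, ← Finset.sum_add_distrib]
      refine Finset.sum_congr rfl fun c _ => ?_
      rw [MonoidAlgebra.coeff_add, Finsupp.add_apply, map_add, add_mul]
    | single c r =>
      rw [evc_single, Finset.sum_eq_single c]
      · rw [MonoidAlgebra.coeff_single, Finsupp.single_eq_same]
      · intro d _ hd
        rw [MonoidAlgebra.coeff_single, Finsupp.single_eq_of_ne hd, map_zero, zero_mul]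
      · intro h; exact absurd (Finset.mem_univ c) h
  have h4 : φ = 0 := by
    apply LinearMap.ext_on_range h3
    intro χ
    rw [hφ, LinearMap.zero_apply, ← hw χ, hev]
  ext c
  have h5 := hφ (Pi.single c 1)
  rw [h4, LinearMap.zero_apply, Finset.sum_eq_single c] at h5
  · rw [Pi.single_eq_same, mul_one] at h5
    exact j.injective (h5.symm.trans (map_zero j).symm)
  · intro d _ hd
    rw [Pi.single_eq_of_ne hd, mul_zero]
  · intro h; exact absurd (Finset.mem_univ c) h

attribute [instance] Fd.perf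

/-- a finitely generated field -/
structure Inp (p : ℕ) where
  /-- the field -/
  K' : Type
  [fld : Field K']
  [char : CharP K' p]
  /-- generators -/
  S : Finset K'
  hS : Subfield.closure (S : Set K') = ⊤

attribute [instance] Inp.fld Inp.char

namespace Inp

variable {p : ℕ} [hp : Fact p.Prime] (I : Inp p)

/-- the transcendental elements -/
def Tr : Type := {a : I.K' // a ≠ 0 ∧ ∀ N, 0 < N → a ^ N ≠ 1}

/-- the index set of the traces -/
def Ix : Type := I.Tr × ℕ

/-- the embeddings -/
def fd (a : I.Tr) : Fd p I.K' a.1 :=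
  Classical.choice (exists_Fd p I.K' I.S I.hS a.1 a.2.2 a.2.1)

/-- the target of the traces -/
def Lam : Type := (i : I.Ix) → Wn p (I.fd i.1).κ i.2

instance : CommRing I.Lam := inferInstanceAs (CommRing ((i : I.Ix) → Wn p (I.fd i.1).κ i.2))

variable {K : Type} [Field K] (j : K →+* I.K') {G G' : Type} [Group G] [Group G']

/-- the traces -/
def TT {h : G → ℤ} (hh : ∀ x y, h (x * y) = h (y * x)) : K1 (MonoidAlgebra K G) →+ I.Lam :=
  AddMonoidHom.pi fun i : I.Ix => TK ((I.fd i.1).ρ.comp j) (cf p (I.fd i.1).κ i.2) hh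

theorem TT_apply {h : G → ℤ} (hh : ∀ x y, h (x * y) = h (y * x)) (x : K1 (MonoidAlgebra K G))
    (i : I.Ix) : TT I j hh x i = TK ((I.fd i.1).ρ.comp j) (cf p (I.fd i.1).κ i.2) hh x := rfl

theorem TT_congr {h h' : G → ℤ} (hh : ∀ x y, h (x * y) = h (y * x))
    (hh' : ∀ x y, h' (x * y) = h' (y * x)) (e : h = h') (x : K1 (MonoidAlgebra K G)) :
    TT I j hh x = TT I j hh' x := by
  subst e
  rfl

theorem TT_map (φ : G →* G') {h' : G' → ℤ} (hh' : ∀ x y, h' (x * y) = h' (y * x))
    (hh : ∀ x y, h' (φ (x * y)) = h' (φ (y * x))) (x : K1 (MonoidAlgebra K G)) :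
    TT I j hh' (K1map (MonoidAlgebra.mapDomainRingHom K φ) x) =
      TT I j (h := fun g => h' (φ g)) hh x := by
  funext i
  exact TK_map _ _ φ hh' hh x

section comm

variable {C : Type} [CommGroup C]

theorem TT_sum [Fintype C] {h : C → ℤ} (hh : ∀ x y, h (x * y) = h (y * x))
    (x : K1 (MonoidAlgebra K C)) :
    TT I j hh x = ∑ d : C, TT I j (dl_comm d) x * ((h d : ℤ) : I.Lam) := by
  have h1 : TT I j hh x = ∑ d : C, h d • TT I j (dl_comm d) x := by
    funext i
    have h2 := TK_sum ((I.fd i.1).ρ.comp j) (cf p (I.fd i.1).κ i.2) hh x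
    have h3 : (∑ d : C, h d • TT I j (dl_comm d) x : I.Lam) i =
        ∑ d : C, (h d • TT I j (dl_comm d) x : I.Lam) i :=
      Finset.sum_apply i Finset.univ (fun d : C => (h d • TT I j (dl_comm d) x :
        (i : I.Ix) → Wn p (I.fd i.1).κ i.2))
    rw [h3]
    exact h2
  rw [h1]
  refine Finset.sum_congr rfl fun d _ => ?_
  rw [zsmul_eq_mul, mul_comm]

theorem TT_ps (D : Subgroup C) [Fintype (C ⧸ D)] [DecidableEq (C ⧸ D)] (d : D)
    (x : K1 (MonoidAlgebra K C)) :
    TT I j (dl_comm d) (K1blow (Tra.ps K D) x) =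
      (Fintype.card (C ⧸ D)) • TT I j (dl_comm (d : C)) x := by
  funext i
  exact TK_ps _ _ D d x

/-- the invariants of a unit -/
def bb (u : Additive (MonoidAlgebra K C)ˣ) (c : C) : I.Lam :=
  TT I j (dl_comm c) (cl (unit1 u.toMul))

theorem bb_add (u v : Additive (MonoidAlgebra K C)ˣ) : bb I j (u + v) = bb I j u + bb I j v := by
  funext c
  unfold bb
  rw [toMul_add, TK.UnK.unit1_mul, cl_mul, map_add, Pi.add_apply]

/-- a unit with vanishing invariants is a root of unity -/
theorem tors [Finite C] {E : ℕ} (hE : 0 < E) {ζ : I.K'} (hζ : IsPrimitiveRoot ζ E)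
    (hC : Nat.card C ∣ E) (u : Additive (MonoidAlgebra K C)ˣ) (hu : bb I j u = 0) :
    ∃ k : ℕ, 0 < k ∧ k • u = 0 := by
  classical
  have key : ∀ χ : C →* I.K'ˣ, ∃ N, 0 < N ∧
      (evc j ((Units.coeHom I.K').comp χ) (u.toMul : MonoidAlgebra K C)) ^ N = 1 := by
    intro χ
    by_contra hne
    push Not at hne
    have ha0 : evc j ((Units.coeHom I.K').comp χ) (u.toMul : MonoidAlgebra K C) ≠ 0 := by
      have h1 : IsUnit (evc j ((Units.coeHom I.K').comp χ) (u.toMul : MonoidAlgebra K C)) :=
        u.toMul.isUnit.map _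
      exact h1.ne_zero
    let a : I.Tr := ⟨evc j ((Units.coeHom I.K').comp χ) (u.toMul : MonoidAlgebra K C), ha0, hne⟩
    have hfin : ∀ d : C, ∃ N, 0 < N ∧ (((Units.coeHom I.K').comp χ) d) ^ N = 1 := by
      intro d
      refine ⟨Nat.card C, Nat.card_pos, ?_⟩
      rw [← map_pow, pow_card_eq_one', map_one]
    have hex : ∀ d : C, ∃ w : (I.fd a).κ, (I.fd a).ρ (((Units.coeHom I.K').comp χ) d) =
        (HahnSeries.C w : L (I.fd a).κ) • (1 : Matrix (Fin (I.fd a).n) (Fin (I.fd a).n) _) :=
      fun d => (I.fd a).ρc _ (hfin d)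
    have hinj : ∀ w w' : (I.fd a).κ, ((HahnSeries.C w : L (I.fd a).κ) •
        (1 : Matrix (Fin (I.fd a).n) (Fin (I.fd a).n) (L (I.fd a).κ))) =
        (HahnSeries.C w' : L (I.fd a).κ) • (1 : Matrix (Fin (I.fd a).n) (Fin (I.fd a).n) _) →
        w = w' := by
      intro w w' h
      have h1 := congrFun (congrFun h ⟨0, (I.fd a).pos⟩) ⟨0, (I.fd a).pos⟩
      rw [Matrix.smul_apply, Matrix.smul_apply, Matrix.one_apply_eq, smul_eq_mul, mul_one,
        smul_eq_mul, mul_one] at h1
      exact HahnSeries.C_injective h1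
    choose ψ0 hψ0 using hex
    let ψ : C →* (I.fd a).κ :=
      { toFun := ψ0
        map_one' := by
          apply hinj
          rw [← hψ0, map_one, map_one, map_one, one_smul]
        map_mul' := by
          intro x y
          apply hinj
          rw [← hψ0, map_mul, map_mul, hψ0, hψ0, map_mul, Matrix.smul_mul, Matrix.one_mul,
            smul_smul] }
    have hall : ∀ m, (((I.fd a).n : ℕ) : Wn p (I.fd a).κ m) = 0 := by
      intro m
      have h2 := detect (cf p (I.fd a).κ m) j (I.fd a).ρ ((Units.coeHom I.K').comp χ) ψ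
        ((tei p (I.fd a).κ m).comp ψ) (fun d => rs_tei p (I.fd a).κ m (ψ d)) hψ0 u.toMul
        (I.fd a).ρa (fun d => congrFun (congrFun hu d) (a, m))
      rw [Fintype.card_fin] at h2
      exact h2
    obtain ⟨m, hm⟩ := exists_natCast_ne_zero p (I.fd a).κ (I.fd a).n (I.fd a).pos.ne'
    exact hm (hall m)
  choose N hN hN1 using key
  have : Fintype C := Fintype.ofFinite C
  have hfin : Finite (C →* I.K'ˣ) := by
    have : Function.Injective (fun (χ : C →* I.K'ˣ) => (fun c => (⟨χ c, by
        rw [mem_rootsOfUnity, ← map_pow, pow_card_eq_one', map_one]⟩ :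
        rootsOfUnity (Nat.card C) I.K'))) := by
      intro χ χ' h
      ext c
      exact congrArg (fun z : rootsOfUnity (Nat.card C) I.K' => ((z : I.K'ˣ) : I.K'))
        (congrFun h c)
    have h0 : NeZero (Nat.card C) := ⟨Nat.card_pos.ne'⟩
    exact Finite.of_injective _ this
  have := Fintype.ofFinite (C →* I.K'ˣ)
  refine ⟨∏ χ, N χ, Finset.prod_pos fun χ _ => hN χ, ?_⟩
  apply Additive.toMul.injective
  rw [toMul_nsmul, toMul_zero]
  apply Units.ext
  rw [Units.val_pow_eq_pow_val, Units.val_one, ← sub_eq_zero]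
  apply evc_inj j hE hζ hC
  intro χ
  obtain ⟨t, ht⟩ := Finset.dvd_prod_of_mem N (Finset.mem_univ χ)
  rw [map_sub, map_pow, map_one, ht, pow_mul, hN1, one_pow, sub_self]

end comm

/-- the theory of units of group rings -/
def theory {E : ℕ} (hE : 0 < E) (hEK : (E : K) ≠ 0) {ζ : I.K'} (hζ : IsPrimitiveRoot ζ E) :
    Theory I.Lam E where
  U C _ := Additive (MonoidAlgebra K C)ˣ
  grp C _ := inferInstance
  map f := Thy.umap K f
  b u := bb I j u
  b_add _ u v := bb_add I j u v
  b_map := by
    intro C D _ _ _ _ hD f hf u c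
    have h1 : cl (unit1 (Thy.umap K f u).toMul) =
        K1map (MonoidAlgebra.mapDomainRingHom K f) (cl (unit1 u.toMul)) := by
      rw [K1map_cl]
      rfl
    show TT I j (dl_comm (f c)) (cl (unit1 (Thy.umap K f u).toMul)) =
      TT I j (dl_comm c) (cl (unit1 u.toMul))
    rw [h1, TT_map I j f (dl_comm (f c)) (fun x y => by rw [mul_comm])]
    apply TT_congr
    funext x
    unfold dl
    by_cases hx : x = c
    · rw [if_pos hx, if_pos (congrArg f hx)]
    · rw [if_neg hx, if_neg (fun h => hx (hf h))]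
  b_map_not := by
    intro C D _ _ _ _ hD f hf u d hd
    have := Fintype.ofFinite C
    have h1 : cl (unit1 (Thy.umap K f u).toMul) =
        K1map (MonoidAlgebra.mapDomainRingHom K f) (cl (unit1 u.toMul)) := by
      rw [K1map_cl]
      rfl
    show TT I j (dl_comm d) (cl (unit1 (Thy.umap K f u).toMul)) = 0
    rw [h1, TT_map I j f (dl_comm d) (fun x y => by rw [mul_comm]), TT_sum]
    refine Finset.sum_eq_zero fun c _ => ?_
    unfold dl
    rw [if_neg (fun h => hd ⟨c, h⟩), Int.cast_zero, mul_zero]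
  res := by
    intro C _ _ hC D u
    classical
    have : Fintype (C ⧸ D) := Fintype.ofFinite _
    have hDE : Nat.card D ∣ E := (Subgroup.card_subgroup_dvd_card D).trans hC
    have hD0 : (Nat.card D : K) ≠ 0 := by
      intro h
      obtain ⟨t, ht⟩ := hDE
      apply hEK
      rw [ht, Nat.cast_mul, h, zero_mul]
    have : NeZero (Nat.card D : K) := ⟨hD0⟩
    have hss : IsSemisimpleRing (MonoidAlgebra K D) := inferInstance
    obtain ⟨v, hv⟩ := TK.UnK.K1_semisimple (MonoidAlgebra K D)
      (K1blow (Tra.ps K D) (cl (unit1 u.toMul)))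
    refine ⟨Fintype.card (C ⧸ D), Additive.ofMul v, Fintype.card_pos, ?_⟩
    intro d
    show TT I j (dl_comm d) (cl (unit1 v)) = _ * TT I j (dl_comm (d : C)) (cl (unit1 u.toMul))
    rw [← hv, TT_ps, nsmul_eq_mul]
  tors := by
    intro C _ _ hC u hu
    exact tors I j hE hζ hC u hu

end Inp

end

end Pool.Agent.Y69.TP
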