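import Pool.Agent.Y69.TP.ModArt
import Pool.Agent.Y69.TP.ThyP
import Pool.Agent.Y69.TK.KMain

/-!
# `colim K₁(k[H]) → K₁(k[G])` has torsion kernel, `k` a field of characteristic `p`
-/

open Matrix

namespace Pool.Agent.Y69.TP

open H970SH H842 Pool.Agent.Y69 Pool.Agent.Y69.Main Pool.Agent.Y69.TK.Dsc
  Pool.Agent.Y69.TK.UnK Pool.Agent.Y69.TK.KMain

noncomputable section

section nil

variable {A : Type} [CommRing A] (p : ℕ) [hp : Fact p.Prime]

/-- matrices with nilpotent entries -/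
theorem mat_nil [IsNoetherianRing A] {n : ℕ} (Z : Matrix (Fin n) (Fin n) A)
    (hZ : ∀ i j, IsNilpotent (Z i j)) : IsNilpotent Z := by
  obtain ⟨c, hc⟩ := IsNoetherianRing.isNilpotent_nilradical A
  refine ⟨c, ?_⟩
  have key : ∀ m : ℕ, ∀ i j, (Z ^ m) i j ∈ (nilradical A) ^ m := by
    intro m
    induction m with
    | zero =>
      intro i j
      rw [pow_zero, Ideal.one_eq_top]
      exact Submodule.mem_top
    | succ m ih =>
      intro i j
      have h1 : (Z ^ (m + 1)) i j = ∑ l, (Z ^ m) i l * Z l j := by rw [pow_succ, Matrix.mul_apply]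
      rw [h1, pow_succ]
      exact Ideal.sum_mem _ fun k _ => Ideal.mul_mem_mul (ih i k) (mem_nilradical.2 (hZ k j))
  ext i j
  have h := key c i j
  rw [hc] at h
  simpa using h

theorem pow_eq_one_of_nil [IsNoetherianRing A] (hA : (p : A) = 0) {n : ℕ}
    (U : (Matrix (Fin n) (Fin n) A)ˣ)
    (hU : ∀ i j, IsNilpotent ((U : Matrix (Fin n) (Fin n) A) i j - (1 : Matrix _ _ A) i j)) :
    ∃ N, 0 < N ∧ U ^ N = 1 := by
  obtain ⟨c, hc⟩ := mat_nil ((U : Matrix (Fin n) (Fin n) A) - 1) hU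
  have hpM : (p : Matrix (Fin n) (Fin n) A) = 0 := by
    have h1 : (Matrix.scalar (Fin n) ((p : ℕ) : A)) = ((p : ℕ) : Matrix (Fin n) (Fin n) A) :=
      map_natCast _ _
    rw [← h1, hA, map_zero]
  refine ⟨p ^ c, pow_pos hp.out.pos _, ?_⟩
  apply Units.ext
  rw [Units.val_pow_eq_pow_val, Units.val_one]
  obtain ⟨r, hr⟩ := (Commute.one_left ((U : Matrix (Fin n) (Fin n) A) - 1)).exists_add_pow_prime_pow_eq
    hp.out c
  rw [add_sub_cancel] at hr
  rw [hr, hpM, zero_mul, zero_mul, zero_mul, add_zero, one_pow]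
  have h2 : ((U : Matrix (Fin n) (Fin n) A) - 1) ^ p ^ c = 0 :=
    pow_eq_zero_of_le (Nat.lt_pow_self hp.out.one_lt).le hc
  rw [h2, add_zero]

end nil

section ppart

variable {k : Type} [Field k] (p : ℕ) [hp : Fact p.Prime] [CharP k p] {C : Type} [CommGroup C]
  [Finite C]

theorem p_zero : ((p : ℕ) : MonoidAlgebra k C) = 0 := by
  have h1 : algebraMap k (MonoidAlgebra k C) ((p : ℕ) : k) = ((p : ℕ) : MonoidAlgebra k C) :=
    map_natCast _ _
  rw [← h1, CharP.cast_eq_zero, map_zero]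

theorem charP_ma : CharP (MonoidAlgebra k C) p :=
  charP_of_injective_algebraMap (algebraMap k (MonoidAlgebra k C)).injective p

theorem sub_nil (φ : C →* C) (a : ℕ) (hφ : ∀ c, (φ c) ^ p ^ a = c ^ p ^ a)
    (x : MonoidAlgebra k C) : IsNilpotent (x - MonoidAlgebra.mapDomainRingHom k φ x) := by
  have := charP_ma (k := k) p (C := C)
  refine ⟨p ^ a, ?_⟩
  rw [sub_pow_char_pow, sub_eq_zero]
  have h1 : (iterateFrobenius (MonoidAlgebra k C) p a).comp (MonoidAlgebra.mapDomainRingHom k φ) =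
      iterateFrobenius (MonoidAlgebra k C) p a := by
    apply RingHom.coe_addMonoidHom_injective
    apply MonoidAlgebra.addMonoidHom_ext
    intro m r
    show iterateFrobenius (MonoidAlgebra k C) p a
      (MonoidAlgebra.mapDomainRingHom k φ (MonoidAlgebra.single m r)) =
      iterateFrobenius (MonoidAlgebra k C) p a (MonoidAlgebra.single m r)
    rw [iterateFrobenius_def, iterateFrobenius_def, MonoidAlgebra.mapDomainRingHom_apply,
      MonoidAlgebra.mapDomain_single, MonoidAlgebra.single_pow, MonoidAlgebra.single_pow, hφ]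
  have h2 := RingHom.congr_fun h1 x
  rw [RingHom.comp_apply, iterateFrobenius_def, iterateFrobenius_def] at h2
  exact h2.symm

theorem K1_ppart (φ : C →* C) (a : ℕ) (hφ : ∀ c, (φ c) ^ p ^ a = c ^ p ^ a)
    (x : K1 (MonoidAlgebra k C)) :
    ∃ N, 0 < N ∧ N • x = N • K1map (MonoidAlgebra.mapDomainRingHom k φ) x := by
  have hN : IsNoetherianRing (MonoidAlgebra k C) := IsNoetherianRing.of_finite k _
  obtain ⟨n, M, rfl⟩ := K1_exists x
  rw [K1map_cl]
  set V : (Matrix (Fin n) (Fin n) (MonoidAlgebra k C))ˣ :=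
    mapUnit (MonoidAlgebra.mapDomainRingHom k φ) M with hV
  obtain ⟨N, hN, h1⟩ := pow_eq_one_of_nil p (p_zero (k := k) p (C := C)) (M * V⁻¹) (by
      intro i j
      have h2 : ((M * V⁻¹ : (Matrix (Fin n) (Fin n) (MonoidAlgebra k C))ˣ) :
          Matrix (Fin n) (Fin n) (MonoidAlgebra k C)) - 1 =
          ((M : Matrix (Fin n) (Fin n) (MonoidAlgebra k C)) -
            (V : Matrix (Fin n) (Fin n) (MonoidAlgebra k C))) *
          ((V⁻¹ : (Matrix (Fin n) (Fin n) (MonoidAlgebra k C))ˣ) :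
            Matrix (Fin n) (Fin n) (MonoidAlgebra k C)) := by
        rw [sub_mul, Units.mul_inv, Units.val_mul]
      rw [← Matrix.sub_apply, h2, Matrix.mul_apply, ← mem_nilradical]
      refine Ideal.sum_mem _ fun l _ => Ideal.mul_mem_right _ _ (mem_nilradical.2 ?_)
      exact sub_nil p φ a hφ _)
  refine ⟨N, hN, ?_⟩
  rw [← sub_eq_zero, ← smul_sub, sub_eq_add_neg, ← cl_inv, ← cl_mul, ← cl_pow, h1, cl_one]

end ppart

section group

/-- the projection to the part of order prime to `p` -/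
theorem exists_proj (p : ℕ) [hp : Fact p.Prime] (C : Type) [CommGroup C] [Finite C] :
    ∃ (φ : C →* C) (a : ℕ), (∀ c, (φ c) ^ p ^ a = c ^ p ^ a) ∧ ¬ p ∣ Nat.card φ.range := by
  obtain ⟨a, m, hm, hcard⟩ := Nat.exists_eq_pow_mul_and_not_dvd (n := Nat.card C)
    Nat.card_pos.ne' p hp.out.ne_one
  have hcop : Nat.Coprime (p ^ a) m := (hp.out.coprime_iff_not_dvd.2 hm).pow_left a
  obtain ⟨n, hn1, hn2⟩ := Nat.chineseRemainder hcop 0 1
  refine ⟨powMonoidHom n, a, ?_, ?_⟩
  · intro c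
    rw [powMonoidHom_apply, ← pow_mul]
    have h1 : n * p ^ a ≡ 1 * p ^ a [MOD Nat.card C] := by
      rw [hcard, mul_comm (p ^ a) m]
      exact hn2.mul_right' (p ^ a)
    rw [one_mul] at h1
    have h2 : n * p ^ a ≡ p ^ a [MOD orderOf c] := h1.of_dvd (orderOf_dvd_natCard c)
    exact pow_eq_pow_iff_modEq.2 h2
  · intro hdvd
    have := Fintype.ofFinite (powMonoidHom n : C →* C).range
    rw [Nat.card_eq_fintype_card] at hdvd
    obtain ⟨⟨y, c, rfl⟩, hy⟩ := exists_prime_orderOf_dvd_card p hdvd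
    apply hm
    have h3 : p ^ a ∣ n := (Nat.modEq_zero_iff_dvd).1 hn1
    obtain ⟨t, ht⟩ := h3
    have h4 : (⟨powMonoidHom n c, ⟨c, rfl⟩⟩ : (powMonoidHom n : C →* C).range) ^ m = 1 := by
      apply Subtype.ext
      show (c ^ n) ^ m = 1
      rw [ht, ← pow_mul, mul_assoc, mul_comm t m, ← mul_assoc, ← hcard, pow_mul,
        pow_card_eq_one', one_pow]
    rw [← hy]
    exact orderOf_dvd_of_pow_eq_one h4

end group

section cov

variable {k : Type} [Field k] (p : ℕ) [hp : Fact p.Prime] [CharP k p] {G : Type} [Group G]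

/-- every element has a multiple which is a combination of classes of groups of order prime
to `p` -/
def CovP (z : K1Colim k G) : Prop := ∃ (l E : ℕ), 0 < l ∧ ¬ p ∣ E ∧ l • z ∈ SE k G E

theorem CovP.zero : CovP p (0 : K1Colim k G) :=
  ⟨1, 1, one_pos, hp.out.one_lt.ne' ∘ Nat.dvd_one.1, by
    rw [smul_zero]; exact AddSubgroup.zero_mem _⟩

theorem CovP.add {x y : K1Colim k G} (hx : CovP p x) (hy : CovP p y) : CovP p (x + y) := by
  obtain ⟨k', E, hk, hE, h1⟩ := hx
  obtain ⟨l, F, hl, hF, h2⟩ := hy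
  refine ⟨k' * l, E * F, Nat.mul_pos hk hl, fun h => (hp.out.dvd_mul.1 h).elim hE hF, ?_⟩
  rw [smul_add]
  refine AddSubgroup.add_mem _ ?_ ?_
  · rw [mul_comm k' l, mul_smul]
    exact AddSubgroup.nsmul_mem _ (SE_mono k (dvd_mul_right E F) h1) l
  · rw [mul_smul]
    exact AddSubgroup.nsmul_mem _ (SE_mono k (dvd_mul_left F E) h2) k'

theorem CovP.neg {x : K1Colim k G} (hx : CovP p x) : CovP p (-x) := by
  obtain ⟨k', E, hk, hE, h1⟩ := hx
  exact ⟨k', E, hk, hE, by rw [smul_neg]; exact AddSubgroup.neg_mem _ h1⟩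

theorem CovP.of_nsmul {x : K1Colim k G} (l : ℕ) (hl : 0 < l) (hx : CovP p (l • x)) : CovP p x := by
  obtain ⟨k', E, hk, hE, h1⟩ := hx
  exact ⟨k' * l, E, Nat.mul_pos hk hl, hE, by rw [mul_smul]; exact h1⟩

/-- classes from an abelian group of order prime to `p` -/
theorem covP_prime {H : FinSub G} {C : Type} [CommGroup C] [Finite C] (φ : C →* H.1)
    (hφ : Function.Injective φ) (hC : ¬ p ∣ Nat.card C) (x : K1 (MonoidAlgebra k C)) :
    CovP p (Colim.ι _ _ H (K1map (MonoidAlgebra.mapDomainRingHom k φ) x) : K1Colim k G) := by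
  have hC0 : (Nat.card C : k) ≠ 0 := fun h => hC ((CharP.cast_eq_zero_iff k p _).1 h)
  have : NeZero (Nat.card C : k) := ⟨hC0⟩
  have hss : IsSemisimpleRing (MonoidAlgebra k C) := inferInstance
  obtain ⟨u, hu⟩ := K1_semisimple (MonoidAlgebra k C) x
  rw [hu, K1map_cl]
  have hinj : Function.Injective (H.1.subtype.comp φ) := Subtype.val_injective.comp hφ
  have h2 : CovP p (sym k (H.1.subtype.comp φ) (Additive.ofMul u)) :=
    ⟨1, Nat.card C, one_pos, hC, by
      rw [one_smul]
      exact AddSubgroup.subset_closure ⟨C, _, _, dvd_rfl, _, hinj, _, rfl⟩⟩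
  -- the inclusion of the image
  have hmem : ∀ y : (rg (H.1.subtype.comp φ)).1, (y : G) ∈ H.1 := by
    rintro ⟨_, x, rfl⟩
    exact (φ x).2
  let θ : (rg (H.1.subtype.comp φ)).1 →* H.1 :=
    { toFun := fun y => ⟨(y : G), hmem y⟩
      map_one' := rfl
      map_mul' := fun y z => rfl }
  have h3 := Colim.ι_rel (G := G) (fun H => K1 (MonoidAlgebra k H))
    (fun φ => K1map (MonoidAlgebra.mapDomainRingHom k φ)) (rg (H.1.subtype.comp φ)) H 1 θ
    (fun y => by
      show (y : G) = 1 * (y : G) * 1⁻¹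
      group)
    (cl (mapUnit (MonoidAlgebra.mapDomainRingHom k (rrg (H.1.subtype.comp φ))) (unit1 u)))
  rw [sym_apply] at h2
  have h4 : θ.comp (rrg (H.1.subtype.comp φ)) = φ := by
    ext x
    rfl
  rw [K1map_cl, mapUnit_comp, h4] at h3
  rw [h3]
  exact h2

/-- classes from an abelian group -/
theorem covP_comm {H : FinSub G} {C : Type} [CommGroup C] [Finite C] (φ : C →* H.1)
    (hφ : Function.Injective φ) (x : K1 (MonoidAlgebra k C)) :
    CovP p (Colim.ι _ _ H (K1map (MonoidAlgebra.mapDomainRingHom k φ) x) : K1Colim k G) := by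
  obtain ⟨π, a, h1, h2⟩ := exists_proj p C
  obtain ⟨N, hN, h3⟩ := K1_ppart p π a h1 x
  apply CovP.of_nsmul p N hN
  have h4 : N • (Colim.ι _ _ H (K1map (MonoidAlgebra.mapDomainRingHom k φ) x) : K1Colim k G) =
      N • Colim.ι _ _ H (K1map (MonoidAlgebra.mapDomainRingHom k (φ.comp π.range.subtype))
        (K1map (MonoidAlgebra.mapDomainRingHom k π.rangeRestrict) x)) := by
    have e1 : ∀ y : K1 (MonoidAlgebra k H.1), N • (Colim.ι _ _ H y : K1Colim k G) =
        Colim.ι _ _ H (N • y) := fun y =>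
      ((Colim.ιHom (G := G) (fun H => K1 (MonoidAlgebra k H))
        (fun φ => K1map (MonoidAlgebra.mapDomainRingHom k φ)) H).map_nsmul N _).symm
    have e2 : N • K1map (MonoidAlgebra.mapDomainRingHom k φ) x =
        N • K1map (MonoidAlgebra.mapDomainRingHom k (φ.comp π.range.subtype))
          (K1map (MonoidAlgebra.mapDomainRingHom k π.rangeRestrict) x) := by
      rw [← map_nsmul, h3, map_nsmul, K1map_comp, K1map_comp, ← MonoidAlgebra.mapDomainRingHom_comp,
        ← MonoidAlgebra.mapDomainRingHom_comp]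
      rfl
    rw [e1, e1, e2]
  rw [h4]
  obtain ⟨l, E, hl, hE, h5⟩ := covP_prime p (φ.comp π.range.subtype)
    (hφ.comp Subtype.val_injective) h2 (K1map (MonoidAlgebra.mapDomainRingHom k π.rangeRestrict) x)
  refine ⟨l, E, hl, hE, ?_⟩
  rw [smul_smul, mul_comm, mul_smul]
  exact AddSubgroup.nsmul_mem _ h5 N

theorem covP_all (z : K1Colim k G) : CovP p z := by
  induction z using Colim.induction with
  | h0 => exact CovP.zero p
  | hadd x y hx hy => exact CovP.add p hx hy
  | hneg x hx => exact CovP.neg p hx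
  | hι H x =>
    have := H.2
    obtain ⟨m, hm, h1⟩ := artinP (R := k) p (CharP.cast_eq_zero k p) x
    apply CovP.of_nsmul p m hm
    have h2 : m • (Colim.ι _ _ H x : K1Colim k G) = Colim.ι _ _ H (m • x) :=
      ((Colim.ιHom (G := G) (fun H => K1 (MonoidAlgebra k H))
        (fun φ => K1map (MonoidAlgebra.mapDomainRingHom k φ)) H).map_nsmul m _).symm
    rw [h2]
    generalize m • x = y at h1 ⊢
    induction h1 using AddSubgroup.closure_induction with
    | mem y hy =>
      obtain ⟨C, hC, n, M, rfl⟩ := hy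
      rw [← K1map_cl]
      exact @covP_comm k _ p hp _ G _ H C (IsCyclic.commGroup) _ C.subtype Subtype.val_injective (cl M)
    | zero =>
      have : (Colim.ι _ _ H (0 : K1 (MonoidAlgebra k H.1)) : K1Colim k G) = 0 :=
        (Colim.ιHom (G := G) (fun H => K1 (MonoidAlgebra k H))
          (fun φ => K1map (MonoidAlgebra.mapDomainRingHom k φ)) H).map_zero
      rw [this]
      exact CovP.zero p
    | add x y _ _ hx hy =>
      rw [Colim.ι_add]
      exact CovP.add p hx hy
    | neg x _ hx =>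
      have : (Colim.ι _ _ H (-x) : K1Colim k G) = - Colim.ι _ _ H x :=
        (Colim.ιHom (G := G) (fun H => K1 (MonoidAlgebra k H))
          (fun φ => K1map (MonoidAlgebra.mapDomainRingHom k φ)) H).map_neg x
      rw [this]
      exact CovP.neg p hx

end cov

end

end Pool.Agent.Y69.TP
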