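import Pool.Agent.Y69.TP.Rep

/-!
# Artin induction for `K₁(R[G])`, `R` a commutative ring of characteristic `p`
-/

namespace Pool.Agent.Y69.TP

open Matrix H970SH H842 Pool.Agent.Y69

noncomputable section

section smith

variable {X Y : Type} [Fintype X] [DecidableEq X] [Fintype Y] [DecidableEq Y]

theorem smith (P : Matrix X Y ℤ) (Q : Matrix Y X ℤ) (δ : ℤ) (hδ : δ ≠ 0)
    (h1 : P * Q = δ • (1 : Matrix X X ℤ)) (h2 : Q * P = δ • (1 : Matrix Y Y ℤ)) :
    ∃ (A A' : Matrix X X ℤ) (C : Matrix Y X ℤ) (C' : Matrix X Y ℤ) (a : X → ℤ),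
      A * A' = 1 ∧ A' * A = 1 ∧ C * C' = 1 ∧ C' * C = 1 ∧ (∀ x, a x ≠ 0) ∧
      P * C = A * Matrix.diagonal a := by
  have inj : ∀ {X Y : Type} [Fintype X] [DecidableEq X] [Fintype Y] [DecidableEq Y]
      (P : Matrix X Y ℤ) (Q : Matrix Y X ℤ), Q * P = δ • (1 : Matrix Y Y ℤ) →
      Function.Injective P.mulVecLin := by
    intro X Y _ _ _ _ P Q h2
    rw [← LinearMap.ker_eq_bot, LinearMap.ker_eq_bot']
    intro v hv
    have h3 : Q *ᵥ (P *ᵥ v) = 0 := by
      have h4 : P *ᵥ v = 0 := hv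
      rw [h4, Matrix.mulVec_zero]
    rw [Matrix.mulVec_mulVec, h2, Matrix.smul_mulVec, Matrix.one_mulVec] at h3
    exact (smul_eq_zero.1 h3).resolve_left hδ
  have hf := inj P Q h2
  have hg := inj Q P h1
  have hc1 := LinearMap.finrank_le_finrank_of_injective hf
  have hc2 := LinearMap.finrank_le_finrank_of_injective hg
  have hN : Module.finrank ℤ (LinearMap.range P.mulVecLin) = Module.finrank ℤ (X → ℤ) := by
    rw [← (LinearEquiv.ofInjective P.mulVecLin hf).finrank_eq]
    exact le_antisymm hc1 hc2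
  obtain ⟨b', a, ab', h⟩ := Submodule.exists_smith_normal_form_of_rank_eq (Pi.basisFun ℤ X) hN
  let c : Module.Basis X ℤ (Y → ℤ) := ab'.map (LinearEquiv.ofInjective P.mulVecLin hf).symm
  have hc : ∀ i, P *ᵥ (c i) = a i • b' i := by
    intro i
    rw [← h i]
    have h5 : (LinearEquiv.ofInjective P.mulVecLin hf) (c i) = ab' i := by
      show (LinearEquiv.ofInjective P.mulVecLin hf) ((ab'.map _) i) = _
      rw [Module.Basis.map_apply, LinearEquiv.apply_symm_apply]
    rw [← h5]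
    rfl
  refine ⟨(Pi.basisFun ℤ X).toMatrix b', b'.toMatrix (Pi.basisFun ℤ X),
    (Pi.basisFun ℤ Y).toMatrix c, c.toMatrix (Pi.basisFun ℤ Y), a,
    Module.Basis.toMatrix_mul_toMatrix_flip _ _, Module.Basis.toMatrix_mul_toMatrix_flip _ _,
    Module.Basis.toMatrix_mul_toMatrix_flip _ _, Module.Basis.toMatrix_mul_toMatrix_flip _ _,
    ?_, ?_⟩
  · intro x hx
    have h6 := h x
    rw [hx, zero_smul] at h6
    exact ab'.ne_zero x (Subtype.ext h6)
  · ext x i
    rw [Matrix.mul_diagonal, Matrix.mul_apply]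
    have h7 := congrFun (hc i) x
    rw [Pi.smul_apply, smul_eq_mul, mul_comm] at h7
    show _ = b' i x * a i
    rw [← h7]
    rfl

end smith

section chain

variable (R : Type) [CommRing R] {G : Type} [Group G] {N N' : Type} [Fintype N] [DecidableEq N]
  [Fintype N'] [DecidableEq N'] {ι : Type} [Fintype ι] [DecidableEq ι]

/-- reduction of an integral representation -/
def rd (ρ : G →* Matrix N N ℤ) : G →* Matrix N N R :=
  ((Int.castRingHom R).mapMatrix : Matrix N N ℤ →+* Matrix N N R).toMonoidHom.comp ρ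

theorem rd_apply (ρ : G →* Matrix N N ℤ) (g : G) (x y : N) :
    rd R ρ g x y = ((ρ g x y : ℤ) : R) := rfl

theorem exists_conj (ρ : G →* Matrix N N ℤ) (q : N → ℤ) (hq : ∀ x, q x ≠ 0)
    (hd : ∀ g x y, q x ∣ ρ g x y * q y) :
    ∃ τ : G →* Matrix N N ℤ, ∀ g x y, ρ g x y * q y = q x * τ g x y := by
  choose t ht using hd
  refine ⟨{ toFun := fun g => Matrix.of fun x y => t g x y
            map_one' := ?_
            map_mul' := ?_ }, fun g x y => ht g x y⟩
  · ext x y
    apply mul_left_cancel₀ (hq x)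
    rw [Matrix.of_apply, ← ht, map_one]
    by_cases h : x = y
    · subst h
      rw [Matrix.one_apply_eq, one_mul, mul_one]
    · rw [Matrix.one_apply_ne h, zero_mul, mul_zero]
  · intro g g'
    ext x y
    apply mul_left_cancel₀ (hq x)
    rw [Matrix.of_apply, ← ht, map_mul, Matrix.mul_apply, Matrix.mul_apply, Finset.sum_mul,
      Finset.mul_sum]
    refine Finset.sum_congr rfl fun z _ => ?_
    rw [Matrix.of_apply, Matrix.of_apply, mul_assoc, ht, ← mul_assoc, ht, mul_assoc]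

theorem zz_step (p : ℕ) (hp : (p : R) = 0) (hp0 : (p : ℤ) ≠ 0) (ρ τ : G →* Matrix N N ℤ)
    (e : N → Prop) [DecidablePred e]
    (h : ∀ g x y, ρ g x y * (if e y then (p : ℤ) else 1) = (if e x then (p : ℤ) else 1) * τ g x y)
    (w : (Matrix ι ι (MonoidAlgebra R G))ˣ) : zz (rd R ρ) w = zz (rd R τ) w := by
  have hpi : ((p : ℤ) : R) = 0 := by rw [Int.cast_natCast, hp]
  have ha : ∀ g x y, e x → ¬ e y → rd R ρ g x y = 0 := by
    intro g x y hx hy
    have h1 := h g x y
    rw [if_neg hy, if_pos hx, mul_one] at h1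
    rw [rd_apply, h1, Int.cast_mul, hpi, zero_mul]
  have hb : ∀ g x y, ¬ e x → e y → rd R τ g x y = 0 := by
    intro g x y hx hy
    have h1 := h g x y
    rw [if_pos hy, if_neg hx, one_mul] at h1
    rw [rd_apply, ← h1, Int.cast_mul, hpi, mul_zero]
  have hc : ∀ g x y, e x → e y → rd R ρ g x y = rd R τ g x y := by
    intro g x y hx hy
    have h1 := h g x y
    rw [if_pos hy, if_pos hx, mul_comm] at h1
    rw [rd_apply, rd_apply, mul_left_cancel₀ hp0 h1]
  have hd : ∀ g x y, ¬ e x → ¬ e y → rd R ρ g x y = rd R τ g x y := by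
    intro g x y hx hy
    have h1 := h g x y
    rw [if_neg hy, if_neg hx, mul_one, one_mul] at h1
    rw [rd_apply, rd_apply, h1]
  have m1 : ∀ (g g' : G) (x z : {x // e x}),
      (rd R ρ (g * g')) x z = ∑ y : {x // e x}, rd R ρ g x y * rd R ρ g' y z := by
    intro g g' x z
    rw [map_mul, Matrix.mul_apply]
    exact sum_split e _ fun y hy => by rw [ha g x y x.2 hy, zero_mul]
  have m2 : ∀ (g g' : G) (x z : {x // ¬ e x}),
      (rd R ρ (g * g')) x z = ∑ y : {x // ¬ e x}, rd R ρ g x y * rd R ρ g' y z := by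
    intro g g' x z
    rw [map_mul, Matrix.mul_apply]
    exact sum_split (fun x => ¬ e x) _ fun y hy => by rw [ha g' y z (not_not.1 hy) z.2, mul_zero]
  have m3 : ∀ (g g' : G) (x z : {x // e x}),
      (rd R τ (g * g')) x z = ∑ y : {x // e x}, rd R τ g x y * rd R τ g' y z := by
    intro g g' x z
    rw [map_mul, Matrix.mul_apply]
    exact sum_split e _ fun y hy => by rw [hb g' y z hy z.2, mul_zero]
  have m4 : ∀ (g g' : G) (x z : {x // ¬ e x}),
      (rd R τ (g * g')) x z = ∑ y : {x // ¬ e x}, rd R τ g x y * rd R τ g' y z := by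
    intro g g' x z
    rw [map_mul, Matrix.mul_apply]
    exact sum_split (fun x => ¬ e x) _ fun y hy => by rw [hb g x y x.2 (not_not.1 hy), zero_mul]
  rw [zz_lower e (rd R ρ) ha m1 m2 w, zz_upper e (rd R τ) hb m3 m4 w,
    blk_congr (rd R ρ) (rd R τ) e m1 m3 (fun g x z => hc g x z x.2 z.2),
    blk_congr (rd R ρ) (rd R τ) (fun x => ¬ e x) m2 m4 (fun g x z => hd g x z x.2 z.2)]

theorem zz_chain (p : ℕ) [hpp : Fact p.Prime] (hp : (p : R) = 0)
    (hunit : ∀ m : ℤ, ¬ (p : ℤ) ∣ m → IsUnit (m : R)) (w : (Matrix ι ι (MonoidAlgebra R G))ˣ) :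
    ∀ (M : ℕ) (ρ σ : G →* Matrix N N ℤ) (e : N → ℕ) (m : N → ℤ), (∀ x, e x ≤ M) →
      (∀ x, ¬ (p : ℤ) ∣ m x) →
      (∀ g x y, ρ g x y * ((p : ℤ) ^ e y * m y) = ((p : ℤ) ^ e x * m x) * σ g x y) →
      zz (rd R ρ) w = zz (rd R σ) w := by
  have hpZ : Prime (p : ℤ) := Nat.prime_iff_prime_int.1 hpp.out
  intro M
  induction M with
  | zero =>
    intro ρ σ e m he hm h
    choose u hu using fun x => hunit (m x) (hm x)
    apply zz_sim (rd R ρ) (rd R σ) (Matrix.diagonal fun x => ((u x : Rˣ) : R))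
      (Matrix.diagonal fun x => (((u x)⁻¹ : Rˣ) : R))
    · rw [Matrix.diagonal_mul_diagonal]
      simp
    · rw [Matrix.diagonal_mul_diagonal]
      simp
    · intro g
      ext x y
      rw [Matrix.mul_diagonal, Matrix.diagonal_mul, hu, hu, rd_apply, rd_apply]
      have h1 := h g x y
      rw [Nat.le_zero.1 (he x), Nat.le_zero.1 (he y), pow_zero, one_mul, one_mul] at h1
      rw [← Int.cast_mul, h1, Int.cast_mul]
  | succ M ih =>
    intro ρ σ e m he hm h
    let q : N → ℤ := fun x => if 1 ≤ e x then (p : ℤ) else 1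
    have hq : ∀ x, q x ≠ 0 := by
      intro x
      simp only [q]
      split_ifs
      · exact hpZ.ne_zero
      · exact one_ne_zero
    have hqe : ∀ x, (p : ℤ) ^ e x = q x * (p : ℤ) ^ (e x - 1) := by
      intro x
      simp only [q]
      split_ifs with h1
      · rw [← pow_succ', Nat.sub_add_cancel h1]
      · have : e x = 0 := by omega
        rw [this, one_mul]
    have hd : ∀ g x y, q x ∣ ρ g x y * q y := by
      intro g x y
      by_cases hx : 1 ≤ e x
      · have hqx : q x = p := if_pos hx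
        rw [hqx]
        by_cases hy : 1 ≤ e y
        · have hqy : q y = p := if_pos hy
          rw [hqy]
          exact dvd_mul_left _ _
        · have h1 := h g x y
          have hy0 : e y = 0 := by omega
          rw [hy0, pow_zero, one_mul] at h1
          have h2 : (p : ℤ) ∣ ρ g x y * m y := by
            rw [h1, hqe x, hqx, mul_assoc, mul_assoc]
            exact dvd_mul_right _ _
          exact Dvd.dvd.mul_right ((hpZ.dvd_or_dvd h2).resolve_right (hm y)) _
      · have hqx : q x = 1 := if_neg hx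
        rw [hqx]
        exact one_dvd _
    obtain ⟨τ, hτ⟩ := exists_conj ρ q hq hd
    rw [zz_step R p hp hpZ.ne_zero ρ τ (fun x => 1 ≤ e x) hτ w]
    apply ih τ σ (fun x => e x - 1) m (fun x => by have := he x; omega) hm
    intro g x y
    apply mul_left_cancel₀ (hq x)
    have h1 := h g x y
    rw [hqe x, hqe y] at h1
    calc q x * (τ g x y * ((p : ℤ) ^ (e y - 1) * m y))
        = (q x * τ g x y) * ((p : ℤ) ^ (e y - 1) * m y) := by ring
      _ = ρ g x y * (q y * (p : ℤ) ^ (e y - 1) * m y) := by rw [← hτ]; ring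
      _ = q x * ((p : ℤ) ^ (e x - 1) * m x * σ g x y) := by rw [h1]; ring

theorem zz_sim_int (ρ : G →* Matrix N N ℤ) (σ : G →* Matrix N' N' ℤ) (A : Matrix N N' ℤ)
    (A' : Matrix N' N ℤ) (h1 : A * A' = 1) (h2 : A' * A = 1) (h3 : ∀ g, ρ g * A = A * σ g)
    (w : (Matrix ι ι (MonoidAlgebra R G))ˣ) : zz (rd R ρ) w = zz (rd R σ) w := by
  apply zz_sim (rd R ρ) (rd R σ) (A.map (Int.castRingHom R)) (A'.map (Int.castRingHom R))
  · rw [← Matrix.map_mul, h1, Matrix.map_one _ (map_zero _) (map_one _)]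
  · rw [← Matrix.map_mul, h2, Matrix.map_one _ (map_zero _) (map_one _)]
  · intro g
    show (ρ g).map (Int.castRingHom R) * _ = _ * (σ g).map (Int.castRingHom R)
    rw [← Matrix.map_mul, h3, Matrix.map_mul]

/-- conjugation of a representation -/
def conjR (ρ : G →* Matrix N N ℤ) (A : Matrix N N' ℤ) (A' : Matrix N' N ℤ) (h1 : A * A' = 1)
    (h2 : A' * A = 1) : G →* Matrix N' N' ℤ where
  toFun g := A' * ρ g * A
  map_one' := by rw [map_one, Matrix.mul_one, h2]
  map_mul' g g' := by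
    rw [map_mul]
    calc A' * (ρ g * ρ g') * A = A' * ρ g * (1 : Matrix N N ℤ) * ρ g' * A := by
          simp only [Matrix.mul_assoc, Matrix.one_mul]
      _ = A' * ρ g * A * (A' * ρ g' * A) := by
          rw [← h1]; simp only [Matrix.mul_assoc]

theorem zz_intertwine (p : ℕ) [hpp : Fact p.Prime] (hp : (p : R) = 0)
    (hunit : ∀ m : ℤ, ¬ (p : ℤ) ∣ m → IsUnit (m : R)) (w : (Matrix ι ι (MonoidAlgebra R G))ˣ)
    (ρ : G →* Matrix N N ℤ) (σ : G →* Matrix N' N' ℤ) (P : Matrix N N' ℤ) (Q : Matrix N' N ℤ)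
    (δ : ℤ) (hδ : δ ≠ 0) (h1 : P * Q = δ • (1 : Matrix N N ℤ)) (h2 : Q * P = δ • (1 : Matrix N' N' ℤ))
    (h3 : ∀ g, ρ g * P = P * σ g) : zz (rd R ρ) w = zz (rd R σ) w := by
  obtain ⟨A, A', C, C', a, hA, hA', hC, hC', ha, hP⟩ := smith P Q δ hδ h1 h2
  have hpZ : Prime (p : ℤ) := Nat.prime_iff_prime_int.1 hpp.out
  have hfm : ∀ x, FiniteMultiplicity (p : ℤ) (a x) := by
    intro x
    rw [Int.finiteMultiplicity_iff]
    exact ⟨by rw [Int.natAbs_natCast]; exact hpp.out.ne_one, ha x⟩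
  choose m hm1 hm2 using fun x => (hfm x).exists_eq_pow_mul_and_not_dvd
  rw [zz_sim_int R ρ (conjR ρ A A' hA hA') A A' hA hA' (fun g => by
      show ρ g * A = A * (A' * ρ g * A)
      rw [← Matrix.mul_assoc, ← Matrix.mul_assoc, hA, Matrix.one_mul]) w,
    zz_sim_int R σ (conjR σ C C' hC hC') C C' hC hC' (fun g => by
      show σ g * C = C * (C' * σ g * C)
      rw [← Matrix.mul_assoc, ← Matrix.mul_assoc, hC, Matrix.one_mul]) w]
  apply zz_chain R p hp hunit w (Finset.univ.sup fun x => multiplicity (p : ℤ) (a x)) _ _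
    (fun x => multiplicity (p : ℤ) (a x)) m (fun x => Finset.le_sup (f := fun x =>
      multiplicity (p : ℤ) (a x)) (Finset.mem_univ x)) hm2
  intro g x y
  rw [← hm1, ← hm1]
  have h4 : (A' * ρ g * A) * Matrix.diagonal a = Matrix.diagonal a * (C' * σ g * C) := by
    calc (A' * ρ g * A) * Matrix.diagonal a = A' * ρ g * (A * Matrix.diagonal a) := by
          simp only [Matrix.mul_assoc]
      _ = A' * (ρ g * P) * C := by rw [← hP]; simp only [Matrix.mul_assoc]
      _ = A' * P * (1 : Matrix N' N' ℤ) * σ g * C := by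
          rw [h3]; simp only [Matrix.mul_assoc, Matrix.one_mul]
      _ = A' * (P * C) * C' * σ g * C := by rw [← hC]; simp only [Matrix.mul_assoc]
      _ = (A' * A) * Matrix.diagonal a * (C' * σ g * C) := by
          rw [hP]; simp only [Matrix.mul_assoc]
      _ = _ := by rw [hA', Matrix.one_mul]
  have h5 := congrFun (congrFun h4 x) y
  rw [Matrix.mul_diagonal, Matrix.diagonal_mul] at h5
  exact h5

end chain

section artin

variable {R : Type} [CommRing R] {G : Type} [Group G]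

/-- permutation representation -/
def pm (G X : Type) [Group G] [Fintype X] [DecidableEq X] [MulAction G X] : G →* Matrix X X ℤ where
  toFun g := Matrix.of fun x y => if g • y = x then 1 else 0
  map_one' := by
    ext x y
    simp only [Matrix.of_apply, one_smul, Matrix.one_apply, eq_comm]
  map_mul' g h := by
    ext x z
    rw [Matrix.mul_apply, Finset.sum_eq_single (h • z)]
    · simp only [Matrix.of_apply, mul_smul]
      split_ifs <;> simp
    · intro b _ hb
      simp [Ne.symm hb]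
    · simp

theorem rth_pm (X : Type) [Fintype X] [DecidableEq X] [MulAction G X] :
    rth (rd R (pm G X)) = TK.ArtK.th G X := by
  apply RingHom.coe_addMonoidHom_injective
  apply MonoidAlgebra.addMonoidHom_ext
  intro g r
  ext x y : 1
  show rth (rd R (pm G X)) (MonoidAlgebra.single g r) x y =
    TK.ArtK.th G X (MonoidAlgebra.single g r) x y
  rw [rth_single, TK.ArtK.th_single, rd_apply]
  show MonoidAlgebra.single g (r * (((if g • y = x then 1 else 0 : ℤ)) : R)) = _
  split_ifs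
  · rw [Int.cast_one, mul_one]
  · rw [Int.cast_zero, mul_zero, MonoidAlgebra.single_zero]

theorem yy_zz (X : Type) [MulAction G X] [Fintype X] [DecidableEq X] {ι : Type} [Fintype ι]
    [DecidableEq ι] (w : (Matrix ι ι (MonoidAlgebra R G))ˣ) :
    TK.ArtK.yy X w = zz (rd R (pm G X)) w := by
  rw [TK.ArtK.yy_eq]
  unfold zz
  rw [rth_pm]

theorem yy_compareP (p : ℕ) [hpp : Fact p.Prime] (hp : (p : R) = 0)
    (hunit : ∀ m : ℤ, ¬ (p : ℤ) ∣ m → IsUnit (m : R)) {X Y : Type} [MulAction G X] [Fintype X]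
    [DecidableEq X] [MulAction G Y] [Fintype Y] [DecidableEq Y] {ι : Type} [Fintype ι]
    [DecidableEq ι] (w : (Matrix ι ι (MonoidAlgebra R G))ˣ) (P : Matrix X Y ℤ) (Q : Matrix Y X ℤ)
    (δ : ℕ) (hδ : 0 < δ) (h1 : P * Q = (δ : Matrix X X ℤ)) (h2 : Q * P = (δ : Matrix Y Y ℤ))
    (h3 : ∀ (g : G) x y, P (g • x) (g • y) = P x y) :
    TK.ArtK.yy X w = TK.ArtK.yy Y w := by
  rw [yy_zz, yy_zz]
  apply zz_intertwine R p hp hunit w (pm G X) (pm G Y) P Q δ (by exact_mod_cast hδ.ne')
  · rw [h1, natCast_zsmul, nsmul_eq_mul, mul_one]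
  · rw [h2, natCast_zsmul, nsmul_eq_mul, mul_one]
  · intro g
    ext x y
    rw [Matrix.mul_apply, Matrix.mul_apply, Finset.sum_eq_single (g⁻¹ • x),
      Finset.sum_eq_single (g • y)]
    · show (if g • g⁻¹ • x = x then (1 : ℤ) else 0) * _ = _ * (if g • y = g • y then (1 : ℤ) else 0)
      rw [if_pos (smul_inv_smul g x), if_pos rfl, one_mul, mul_one, ← h3 g (g⁻¹ • x) y,
        smul_inv_smul]
    · intro z _ hz
      show _ * (if g • y = z then (1 : ℤ) else 0) = 0
      rw [if_neg (Ne.symm hz), mul_zero]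
    · intro h; exact absurd (Finset.mem_univ _) h
    · intro z _ hz
      show (if g • z = x then (1 : ℤ) else 0) * _ = 0
      rw [if_neg, zero_mul]
      intro h
      apply hz
      rw [← h, inv_smul_smul]
    · intro h; exact absurd (Finset.mem_univ _) h

theorem isUnit_int (p : ℕ) [hpp : Fact p.Prime] (hp : (p : R) = 0) (m : ℤ) (hm : ¬ (p : ℤ) ∣ m) :
    IsUnit (m : R) := by
  have hpZ : Prime (p : ℤ) := Nat.prime_iff_prime_int.1 hpp.out
  obtain ⟨u, v, huv⟩ := (hpZ.coprime_iff_not_dvd.2 hm)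
  have h1 := congrArg (Int.cast : ℤ → R) huv
  rw [Int.cast_add, Int.cast_mul, Int.cast_mul, Int.cast_natCast, hp, mul_zero, zero_add,
    Int.cast_one] at h1
  exact ⟨⟨(m : R), (v : R), by rw [mul_comm]; exact h1, h1⟩, rfl⟩

/-- Artin induction for `K₁(R[G])`, `R` a commutative ring of characteristic `p`. -/
theorem artinP (p : ℕ) [hpp : Fact p.Prime] (hp : (p : R) = 0) {G : Type} [Group G] [Finite G]
    (x : K1 (MonoidAlgebra R G)) :
    ∃ k : ℕ, 0 < k ∧ k • x ∈ AddSubgroup.closure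
      {y | ∃ (C : Subgroup G) (_ : IsCyclic C) (n : ℕ)
        (M : (Matrix (Fin n) (Fin n) (MonoidAlgebra R C))ˣ),
        y = cl (mapUnit (MonoidAlgebra.mapDomainRingHom R C.subtype) M)} := by
  obtain ⟨N, w, rfl⟩ := K1_exists x
  obtain ⟨n, m, B, B', s, hs, ⟨l₁, l₂, hl₁, hl₂, hB, hB'⟩, f1, d1, f2, d2, P, Q, δ, hδ, h1, h2, h3⟩ :=
    artin_matrix G
  have h := yy_compareP p hp (isUnit_int p hp) w P Q δ hδ h1 h2 h3
  refine ⟨s, hs, ?_⟩
  have e1 : ∀ (n : ℕ) (B : Fin n → Subgroup G), TK.ArtK.yy (XX B) w =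
      ((List.ofFn B).map fun C => TK.ArtK.yy (G ⧸ C) w).sum := by
    intro n B
    rw [TK.ArtK.yy_XX, List.map_ofFn, List.sum_ofFn]
    rfl
  rw [e1, e1, hB, hB'] at h
  rw [List.map_append, List.sum_append, List.map_replicate, List.sum_replicate] at h
  have e2 : TK.ArtK.yy (G ⧸ (⊤ : Subgroup G)) w = cl w := by
    have : Subsingleton (G ⧸ (⊤ : Subgroup G)) := QuotientGroup.subsingleton_quotient_top
    let _ : Unique (G ⧸ (⊤ : Subgroup G)) :=
      ⟨⟨((1 : G) : G ⧸ (⊤ : Subgroup G))⟩, fun _ => Subsingleton.elim _ _⟩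
    exact TK.ArtK.yy_point w
  rw [e2] at h
  have h4 : s • cl w = (l₂.map fun C => TK.ArtK.yy (G ⧸ C) w).sum -
      (l₁.map fun C => TK.ArtK.yy (G ⧸ C) w).sum := by
    rw [← h]
    abel
  rw [h4]
  exact AddSubgroup.sub_mem _ (TK.ArtK.list_mem_cyc w l₂ hl₂) (TK.ArtK.list_mem_cyc w l₁ hl₁)

end artin

end

end Pool.Agent.Y69.TP
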