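import Pool.Agent.Y69.TP.Trc
import Pool.Agent.Y69.Tra
import Pool.Agent.Y69.TK.Dsc

/-!
# Properties of the residue trace on `K₁`
-/

namespace Pool.Agent.Y69.TP

open HahnSeries Finset Matrix H970SH H842 Pool.Agent.Y69

noncomputable section

section blow

variable {A B C' : Type} [Ring A] [Ring B] [Ring C'] {X Y : Type} [Fintype X] [DecidableEq X]
  [Fintype Y] [DecidableEq Y]

theorem exists_K1blow (F : A →+* Matrix X X B) : ∃ K : K1 A →+ K1 B,
    ∀ (ι : Type) [Fintype ι] [DecidableEq ι] (M : (Matrix ι ι A)ˣ), K (cl M) = cl (blow F M) := by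
  obtain ⟨K, hK⟩ := KTr.K1_lift (R := A) (fun n M => cl (blow F M))
    (fun n M N => by rw [map_mul, cl_mul]) (by
      intro n M N hN
      rw [← cl_stab (κ := Fin 1 × X) (blow F M)]
      apply cl_congr ((Equiv.prodCongr finSumFinEquiv.symm (Equiv.refl X)).trans
        (Equiv.sumProdDistrib (Fin n) (Fin 1) X))
      rintro ⟨i, x⟩ ⟨j, y⟩
      rw [blow_apply, hN, diagU_val]
      obtain ⟨i, rfl⟩ := finSumFinEquiv.surjective i
      obtain ⟨j, rfl⟩ := finSumFinEquiv.surjective j
      rcases i with i | i <;> rcases j with j | j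
      · simp [blow_apply]
      · simp
      · simp
      · have := Subsingleton.elim i j
        subst this
        by_cases hxy : x = y
        · subst hxy; simp
        · simp [hxy])
  refine ⟨K, ?_⟩
  intro ι _ _ M
  unfold cl
  rw [hK]
  show cl _ = cl (blow F M)
  symm
  apply cl_congr (Equiv.prodCongr (Fintype.equivFin ι) (Equiv.refl X))
  rintro ⟨i, x⟩ ⟨j, y⟩
  rw [blow_apply, blow_apply, reindexUnit_val]
  simp

/-- functoriality of `K₁` for ring homomorphisms to matrix rings -/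
def K1blow (F : A →+* Matrix X X B) : K1 A →+ K1 B := (exists_K1blow F).choose

theorem K1blow_cl (F : A →+* Matrix X X B) {ι : Type} [Fintype ι] [DecidableEq ι]
    (M : (Matrix ι ι A)ˣ) : K1blow F (cl M) = cl (blow F M) := (exists_K1blow F).choose_spec ι M

theorem K1blow_map (F : B →+* Matrix X X C') (f : A →+* B) (x : K1 A) :
    K1blow F (K1map f x) = K1blow (F.comp f) x := by
  obtain ⟨n, M, rfl⟩ := K1_exists x
  rw [K1map_cl, K1blow_cl, K1blow_cl]
  rfl

theorem K1map_blow (F : A →+* Matrix X X B) (f : B →+* C') (x : K1 A) :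
    K1map f (K1blow F x) = K1blow (f.mapMatrix.comp F) x := by
  obtain ⟨n, M, rfl⟩ := K1_exists x
  rw [K1blow_cl, K1map_cl, K1blow_cl]
  rfl

theorem K1blow_comm {B' : Type} [Ring B'] (F : A →+* Matrix X X B) (F' : B →+* Matrix Y Y C')
    (E : A →+* Matrix Y Y B') (E' : B' →+* Matrix X X C')
    (h : ∀ a x x' y y', F' (F a x x') y y' = E' (E a y y') x x') (x : K1 A) :
    K1blow F' (K1blow F x) = K1blow E' (K1blow E x) := by
  obtain ⟨n, M, rfl⟩ := K1_exists x
  rw [K1blow_cl, K1blow_cl, K1blow_cl, K1blow_cl]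
  apply cl_congr (Equiv.mk (fun p => ((p.1.1, p.2), p.1.2)) (fun p => ((p.1.1, p.2), p.1.2))
    (fun _ => rfl) (fun _ => rfl))
  rintro ⟨⟨i, x⟩, y⟩ ⟨⟨j, x'⟩, y'⟩
  exact h _ _ _ _ _

end blow

section D

variable {R : Type} [CommRing R] {G G' : Type} [Group G] [Group G']
  {h : G → ℤ} (hh : ∀ x y, h (x * y) = h (y * x))
  {h' : G' → ℤ} (hh' : ∀ x y, h' (x * y) = h' (y * x))
  {ι X : Type} [Fintype ι] [DecidableEq ι] [Fintype X] [DecidableEq X]

/-- the logarithmic derivative matrix -/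
def ld (U : (Matrix ι ι (MonoidAlgebra (L R) G))ˣ) : Matrix ι ι (MonoidAlgebra (L R) G) :=
  ((U⁻¹ : (Matrix ι ι (MonoidAlgebra (L R) G))ˣ) : Matrix ι ι (MonoidAlgebra (L R) G)) *
    dM (U : Matrix ι ι (MonoidAlgebra (L R) G))

theorem D_eq_ld (U : (Matrix ι ι (MonoidAlgebra (L R) G))ˣ) :
    (dt ι R G h hh).D U = ∑ i, tau h (ld U i i) := D_apply hh U

theorem ld_mapUnit (F : MonoidAlgebra (L R) G →+* MonoidAlgebra (L R) G')
    (hF : ∀ a, dG (F a) = F (dG a)) (U : (Matrix ι ι (MonoidAlgebra (L R) G))ˣ) (i j : ι) :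
    ld (mapUnit F U) i j = F (ld U i j) := by
  have h1 : dM ((mapUnit F U : (Matrix ι ι (MonoidAlgebra (L R) G'))ˣ) :
      Matrix ι ι (MonoidAlgebra (L R) G')) =
      F.mapMatrix (dM (U : Matrix ι ι (MonoidAlgebra (L R) G))) := by
    ext i j : 1
    exact hF _
  unfold ld
  rw [h1]
  show (F.mapMatrix ((U⁻¹ : (Matrix ι ι (MonoidAlgebra (L R) G))ˣ) :
    Matrix ι ι (MonoidAlgebra (L R) G)) * F.mapMatrix (dM (U : Matrix ι ι (MonoidAlgebra (L R) G))) :
    Matrix ι ι (MonoidAlgebra (L R) G')) i j = _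
  rw [← map_mul]
  rfl

/-- the ring homomorphism underlying `blow` -/
def FbM {A B : Type} [Ring A] [Ring B] (F : A →+* Matrix X X B) :
    Matrix ι ι A →+* Matrix (ι × X) (ι × X) B :=
  (Matrix.compRingEquiv ι X B : Matrix ι ι (Matrix X X B) ≃+* _).toRingHom.comp F.mapMatrix

theorem ld_blow (F : MonoidAlgebra (L R) G →+* Matrix X X (MonoidAlgebra (L R) G'))
    (hF : ∀ a x y, dG (F a x y) = F (dG a) x y) (U : (Matrix ι ι (MonoidAlgebra (L R) G))ˣ)
    (p q : ι × X) : ld (blow F U) p q = F (ld U p.1 q.1) p.2 q.2 := by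
  have h1 : dM ((blow F U : (Matrix (ι × X) (ι × X) (MonoidAlgebra (L R) G'))ˣ) :
      Matrix (ι × X) (ι × X) (MonoidAlgebra (L R) G')) =
      FbM F (dM (U : Matrix ι ι (MonoidAlgebra (L R) G))) := by
    ext p q : 1
    exact hF _ _ _
  unfold ld
  rw [h1]
  show (FbM F ((U⁻¹ : (Matrix ι ι (MonoidAlgebra (L R) G))ˣ) :
    Matrix ι ι (MonoidAlgebra (L R) G)) * FbM F (dM (U : Matrix ι ι (MonoidAlgebra (L R) G))) :
    Matrix (ι × X) (ι × X) (MonoidAlgebra (L R) G')) p q = _
  rw [← map_mul]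
  rfl

end D

section Tt

variable {W R κ : Type} [CommRing W] [CommRing R] [CommRing κ] (c : Cf W R κ)
  {G G' : Type} [Group G] [Group G']

theorem Tt_map (φ : G →* G') {h' : G' → ℤ} (hh' : ∀ x y, h' (x * y) = h' (y * x))
    (hh : ∀ x y, h' (φ (x * y)) = h' (φ (y * x))) (x : K1 (MonoidAlgebra (L κ) G)) :
    Tt c hh' (K1map (MonoidAlgebra.mapDomainRingHom (L κ) φ) x) =
      Tt c (h := fun g => h' (φ g)) hh x := by
  obtain ⟨n, U, rfl⟩ := K1_lift_exists c x
  rw [K1map_cl]
  have h1 : mapUnit (MonoidAlgebra.mapDomainRingHom (L κ) φ)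
      (mapUnit (MonoidAlgebra.mapRingHom G (Lm c.f)) U) =
      mapUnit (MonoidAlgebra.mapRingHom G' (Lm c.f))
        (mapUnit (MonoidAlgebra.mapDomainRingHom (L R) φ) U) := by
    rw [TK.Dsc.mapUnit_mapUnit, TK.Dsc.mapUnit_mapUnit, TK.Dsc.mapRing_mapDomain]
  rw [h1, Tt_cl, Tt_cl, D_eq_ld, D_eq_ld]
  refine Finset.sum_congr rfl fun i _ => ?_
  rw [ld_mapUnit _ (dG_mapDomain φ), tau_mapDomain]

section comm

variable {C : Type} [CommGroup C]

open Classical in
/-- delta function -/
def dl (c : C) : C → ℤ := fun x => if x = c then 1 else 0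

theorem dl_comm (c : C) : ∀ x y, dl c (x * y) = dl c (y * x) := fun x y => by rw [mul_comm]

theorem tau_sum [Fintype C] (h : C → ℤ) (x : MonoidAlgebra (L R) C) :
    tau h x = ∑ d, h d • tau (dl d) x := by
  classical
  induction x using MonoidAlgebra.induction_linear with
  | zero => simp
  | add a b ha hb =>
    rw [map_add, ha, hb, ← Finset.sum_add_distrib]
    refine Finset.sum_congr rfl fun d _ => ?_
    rw [map_add, smul_add]
  | single g r =>
    rw [tau_single, Finset.sum_eq_single g]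
    · rw [tau_single, dl, if_pos rfl, one_smul]
    · intro d _ hd
      rw [tau_single, dl, if_neg (Ne.symm hd), zero_smul, smul_zero]
    · intro h; exact absurd (Finset.mem_univ _) h

theorem Tt_sum [Fintype C] {h : C → ℤ} (hh : ∀ x y, h (x * y) = h (y * x))
    (x : K1 (MonoidAlgebra (L κ) C)) :
    Tt c hh x = ∑ d, h d • Tt c (dl_comm d) x := by
  obtain ⟨n, U, rfl⟩ := K1_lift_exists c x
  rw [Tt_cl, D_eq_ld]
  have h1 : ∀ d : C, Tt c (dl_comm d) (cl (mapUnit (MonoidAlgebra.mapRingHom C (Lm c.f)) U)) =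
      ∑ i, tau (dl d) (ld U i i) := fun d => by rw [Tt_cl, D_eq_ld]
  simp only [h1]
  simp only [Finset.smul_sum]
  rw [Finset.sum_comm]
  exact Finset.sum_congr rfl fun i _ => tau_sum h _

/-- the trace is the constant term of a coefficient -/
theorem tau_dl (d : C) (x : MonoidAlgebra (L R) C) : tau (dl d) x = CT (x.coeff d) := by
  classical
  induction x using MonoidAlgebra.induction_linear with
  | zero => simp
  | add a b ha hb =>
    rw [map_add, ha, hb, MonoidAlgebra.coeff_add, Finsupp.add_apply, map_add]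
  | single g r =>
    rw [tau_single, MonoidAlgebra.coeff_single, dl]
    by_cases h : g = d
    · rw [if_pos h, h, one_smul, Finsupp.single_eq_same]
    · rw [if_neg h, zero_smul, Finsupp.single_eq_of_ne' h, map_zero]

theorem dG_ps (D : Subgroup C) [Fintype (C ⧸ D)] [DecidableEq (C ⧸ D)]
    (a : MonoidAlgebra (L R) C) (x y : C ⧸ D) :
    dG (Tra.ps (L R) D a x y) = Tra.ps (L R) D (dG a) x y := by
  induction a using MonoidAlgebra.induction_linear with
  | zero => simp
  | add a b ha hb => rw [map_add, Matrix.add_apply, map_add, ha, hb, map_add, map_add, Matrix.add_apply]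
  | single g r =>
    rw [dG_single, Tra.ps_single, Tra.ps_single, Matrix.smul_apply, Matrix.smul_apply]
    show dG (r • (if h : g • y = x then MonoidAlgebra.of (L R) D _ else 0)) =
      th r • (if h : g • y = x then MonoidAlgebra.of (L R) D _ else 0)
    by_cases h : g • y = x
    · rw [dif_pos h, MonoidAlgebra.of_apply, MonoidAlgebra.smul_single,
        MonoidAlgebra.smul_single, dG_single, smul_eq_mul, smul_eq_mul, mul_one, mul_one]
    · rw [dif_neg h, smul_zero, smul_zero, map_zero]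

theorem tau_ps (D : Subgroup C) [Fintype (C ⧸ D)] [DecidableEq (C ⧸ D)]
    (a : MonoidAlgebra (L R) C) (d : D) :
    ∑ x, tau (dl d) (Tra.ps (L R) D a x x) =
      (Fintype.card (C ⧸ D)) • tau (dl (d : C)) a := by
  rw [← map_sum, tau_dl, tau_dl]
  have h1 := Tra.trace_ps (L R) D a d
  rw [Matrix.trace] at h1
  simp only [Matrix.diag_apply] at h1
  rw [h1, ← nsmul_eq_mul, map_nsmul]

theorem Tt_ps (D : Subgroup C) [Fintype (C ⧸ D)] [DecidableEq (C ⧸ D)] (d : D)
    (x : K1 (MonoidAlgebra (L κ) C)) :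
    Tt c (dl_comm d) (K1blow (Tra.ps (L κ) D) x) =
      (Fintype.card (C ⧸ D)) • Tt c (dl_comm (d : C)) x := by
  obtain ⟨n, U, rfl⟩ := K1_lift_exists c x
  rw [K1blow_cl]
  have h1 : blow (Tra.ps (L κ) D) (mapUnit (MonoidAlgebra.mapRingHom C (Lm c.f)) U) =
      mapUnit (MonoidAlgebra.mapRingHom D (Lm c.f)) (blow (Tra.ps (L R) D) U) := by
    apply Units.ext
    ext p q : 1
    rw [blow_apply, mapUnit_val, mapUnit_val, Matrix.map_apply, Matrix.map_apply, blow_apply,
      Tra.ps_map]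
    rfl
  rw [h1, Tt_cl, Tt_cl, D_eq_ld, D_eq_ld, Fintype.sum_prod_type, Finset.smul_sum]
  refine Finset.sum_congr rfl fun i _ => ?_
  rw [← tau_ps]
  refine Finset.sum_congr rfl fun x _ => ?_
  rw [ld_blow _ (dG_ps D)]

/-- the twist with a character -/
def tw {R : Type} [CommRing R] (ψ : C →* R) : MonoidAlgebra (L R) C →+* MonoidAlgebra (L R) C :=
  (MonoidAlgebra.lift (L R) (MonoidAlgebra (L R) C) C
    { toFun := fun d => MonoidAlgebra.single d (HahnSeries.C (ψ d))
      map_one' := by rw [map_one, map_one]; rfl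
      map_mul' := fun x y => by
        rw [map_mul, map_mul, MonoidAlgebra.single_mul_single] }).toRingHom

theorem tw_single {R : Type} [CommRing R] (ψ : C →* R) (d : C) (r : L R) :
    tw ψ (MonoidAlgebra.single d r) = MonoidAlgebra.single d (HahnSeries.C (ψ d) * r) := by
  show (MonoidAlgebra.lift (L R) (MonoidAlgebra (L R) C) C _) _ = _
  rw [MonoidAlgebra.lift_single]
  show r • MonoidAlgebra.single d (HahnSeries.C (ψ d)) = _
  rw [MonoidAlgebra.smul_single, smul_eq_mul, mul_comm]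

theorem th_C_mul {R : Type} [CommRing R] (a : R) (r : L R) :
    th (HahnSeries.C a * r) = HahnSeries.C a * th r := by
  rw [th_mul, th_C, zero_mul, zero_add]

theorem dG_tw (ψ : C →* R) (a : MonoidAlgebra (L R) C) : dG (tw ψ a) = tw ψ (dG a) := by
  induction a using MonoidAlgebra.induction_linear with
  | zero => simp
  | add a b ha hb => rw [map_add, map_add, ha, hb, map_add, map_add]
  | single g r => rw [tw_single, dG_single, dG_single, tw_single, th_C_mul]

theorem tau_tw (ψ : C →* R) (d : C) (a : MonoidAlgebra (L R) C) :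
    tau (dl d) (tw ψ a) = ψ d * tau (dl d) a := by
  induction a using MonoidAlgebra.induction_linear with
  | zero => simp
  | add a b ha hb => rw [map_add, map_add, ha, hb, map_add, mul_add]
  | single g r =>
    rw [tw_single, tau_single, tau_single, CT_C_mul, dl]
    by_cases h : g = d
    · rw [if_pos h, h, one_smul, one_smul]
    · rw [if_neg h, zero_smul, zero_smul, mul_zero]

theorem Tt_tw (ψ : C →* κ) (Ψ : C →* R) (hΨ : ∀ d, c.f (Ψ d) = ψ d) (d : C)
    (x : K1 (MonoidAlgebra (L κ) C)) :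
    Tt c (dl_comm d) (K1map (tw ψ) x) = Ψ d * Tt c (dl_comm d) x := by
  obtain ⟨n, U, rfl⟩ := K1_lift_exists c x
  rw [K1map_cl]
  have h1 : mapUnit (tw ψ) (mapUnit (MonoidAlgebra.mapRingHom C (Lm c.f)) U) =
      mapUnit (MonoidAlgebra.mapRingHom C (Lm c.f)) (mapUnit (tw Ψ) U) := by
    rw [TK.Dsc.mapUnit_mapUnit, TK.Dsc.mapUnit_mapUnit]
    congr 1
    apply RingHom.coe_addMonoidHom_injective
    apply MonoidAlgebra.addMonoidHom_ext
    intro m r
    show tw ψ (MonoidAlgebra.mapRingHom C (Lm c.f) (MonoidAlgebra.single m r)) =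
      MonoidAlgebra.mapRingHom C (Lm c.f) (tw Ψ (MonoidAlgebra.single m r))
    rw [MonoidAlgebra.mapRingHom_single, tw_single, tw_single, MonoidAlgebra.mapRingHom_single,
      map_mul, Lm_C, hΨ]
  rw [h1, Tt_cl, Tt_cl, D_eq_ld, D_eq_ld, Finset.mul_sum]
  refine Finset.sum_congr rfl fun i _ => ?_
  rw [ld_mapUnit _ (dG_tw Ψ), tau_tw]

end comm

/-- the value on the variable -/
theorem Tt_X {h : G → ℤ} (hh : ∀ x y, h (x * y) = h (y * x)) {ι : Type} [Fintype ι]
    [DecidableEq ι] (M : (Matrix ι ι (MonoidAlgebra (L κ) G))ˣ)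
    (hM : ∀ i j, (M : Matrix ι ι (MonoidAlgebra (L κ) G)) i j =
      if i = j then MonoidAlgebra.single 1 (HahnSeries.single (1 : ℤ) (1 : κ)) else 0) :
    Tt c hh (cl M) = (h 1 : R) * (Fintype.card ι : R) := by
  let U : (Matrix ι ι (MonoidAlgebra (L R) G))ˣ :=
    { val := Matrix.diagonal fun _ => MonoidAlgebra.single 1 ((Xu R : (L R)ˣ) : L R)
      inv := Matrix.diagonal fun _ => MonoidAlgebra.single 1 (((Xu R)⁻¹ : (L R)ˣ) : L R)
      val_inv := by
        rw [Matrix.diagonal_mul_diagonal]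
        simp only [MonoidAlgebra.single_mul_single, one_mul, Units.mul_inv]
        exact Matrix.diagonal_one
      inv_val := by
        rw [Matrix.diagonal_mul_diagonal]
        simp only [MonoidAlgebra.single_mul_single, one_mul, Units.inv_mul]
        exact Matrix.diagonal_one }
  have h1 : M = mapUnit (MonoidAlgebra.mapRingHom G (Lm c.f)) U := by
    apply Units.ext
    ext i j : 1
    rw [hM, mapUnit_val, Matrix.map_apply]
    show _ = MonoidAlgebra.mapRingHom G (Lm c.f)
      ((Matrix.diagonal fun _ => MonoidAlgebra.single 1 ((Xu R : (L R)ˣ) : L R)) i j)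
    by_cases h : i = j
    · subst h
      rw [if_pos rfl, Matrix.diagonal_apply_eq, MonoidAlgebra.mapRingHom_single]
      congr 1
      exact (Lm_X c.f).symm
    · rw [if_neg h, Matrix.diagonal_apply_ne _ h, map_zero]
  rw [h1, Tt_cl, D_eq_ld]
  have h2 : ∀ i, ld U i i = MonoidAlgebra.single 1 (1 : L R) := by
    intro i
    show ((Matrix.diagonal fun _ => MonoidAlgebra.single 1 (((Xu R)⁻¹ : (L R)ˣ) : L R)) *
      dM (Matrix.diagonal fun _ => MonoidAlgebra.single 1 ((Xu R : (L R)ˣ) : L R)) :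
      Matrix ι ι (MonoidAlgebra (L R) G)) i i = _
    rw [Matrix.diagonal_mul, dM_apply, Matrix.diagonal_apply_eq, dG_single,
      MonoidAlgebra.single_mul_single, one_mul]
    congr 1
    show (((Xu R)⁻¹ : (L R)ˣ) : L R) * th (HahnSeries.single (1 : ℤ) (1 : R)) = 1
    rw [th_X]
    exact (Xu R).inv_mul
  simp only [h2]
  rw [Finset.sum_const, Finset.card_univ, tau_single, CT_one, nsmul_eq_mul, zsmul_eq_mul, mul_one,
    mul_comm]

end Tt

end

end Pool.Agent.Y69.TP
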