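import Pool.Agent.Y69.TK.ArtK

/-!
# Twisting `K₁(R[G])` with integral and modular representations
-/

namespace Pool.Agent.Y69.TP

open Matrix H970SH H842 Pool.Agent.Y69

noncomputable section

section rep

variable {R : Type} [CommRing R] {G : Type} [Group G] {N N' : Type} [Fintype N] [DecidableEq N]
  [Fintype N'] [DecidableEq N'] {ι : Type} [Fintype ι] [DecidableEq ι]

theorem single_sum' {M : Type} [Monoid M] (g : M) {α : Type} (s : Finset α) (f : α → R) :
    MonoidAlgebra.single g (∑ i ∈ s, f i) = ∑ i ∈ s, MonoidAlgebra.single g (f i) := by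
  classical
  induction s using Finset.induction_on with
  | empty => simp
  | insert a s ha ih => rw [Finset.sum_insert ha, Finset.sum_insert ha, MonoidAlgebra.single_add, ih]

/-- `g ↦ ρ(g) ⊗ g` -/
def rthHom (ρ : G →* Matrix N N R) : G →* Matrix N N (MonoidAlgebra R G) where
  toFun g := Matrix.of fun x y => MonoidAlgebra.single g (ρ g x y)
  map_one' := by
    ext x y : 1
    rw [map_one, Matrix.of_apply]
    by_cases h : x = y
    · subst h
      rw [Matrix.one_apply_eq, Matrix.one_apply_eq]
      rfl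
    · rw [Matrix.one_apply_ne h, Matrix.one_apply_ne h, MonoidAlgebra.single_zero]
  map_mul' g h := by
    ext x y : 1
    rw [map_mul, Matrix.of_apply, Matrix.mul_apply, Matrix.mul_apply, single_sum']
    refine Finset.sum_congr rfl fun z _ => ?_
    rw [Matrix.of_apply, Matrix.of_apply, MonoidAlgebra.single_mul_single]

/-- the ring homomorphism -/
def rth (ρ : G →* Matrix N N R) : MonoidAlgebra R G →+* Matrix N N (MonoidAlgebra R G) :=
  (MonoidAlgebra.lift R (Matrix N N (MonoidAlgebra R G)) G (rthHom ρ)).toRingHom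

theorem rth_single (ρ : G →* Matrix N N R) (g : G) (r : R) (x y : N) :
    rth ρ (MonoidAlgebra.single g r) x y = MonoidAlgebra.single g (r * ρ g x y) := by
  have h1 : rth ρ (MonoidAlgebra.single g r) = r • rthHom ρ g := by
    show (MonoidAlgebra.lift R (Matrix N N (MonoidAlgebra R G)) G (rthHom ρ)) _ = _
    rw [MonoidAlgebra.lift_single]
  rw [h1, Matrix.smul_apply]
  show r • MonoidAlgebra.single g (ρ g x y) = _
  rw [MonoidAlgebra.smul_single, smul_eq_mul]

/-- the twisted class -/
def zz (ρ : G →* Matrix N N R) (w : (Matrix ι ι (MonoidAlgebra R G))ˣ) : K1 (MonoidAlgebra R G) :=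
  cl (blow (rth ρ) w)

/-- the block diagonal matrix -/
def bd (ι : Type) [Fintype ι] [DecidableEq ι] (G : Type) [Group G] (A : Matrix N N' R) :
    Matrix (ι × N) (ι × N') (MonoidAlgebra R G) :=
  Matrix.of fun p q => if p.1 = q.1 then MonoidAlgebra.single 1 (A p.2 q.2) else 0

theorem bd_mul {N'' : Type} [Fintype N''] [DecidableEq N''] (A : Matrix N N' R)
    (B : Matrix N' N'' R) : bd ι G A * bd ι G B = bd ι G (A * B) := by
  ext ⟨i, x⟩ ⟨j, y⟩ : 1
  rw [Matrix.mul_apply, Fintype.sum_prod_type, Finset.sum_eq_single i]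
  · simp only [bd, Matrix.of_apply, if_true]
    by_cases h : i = j
    · simp only [h, if_true]
      rw [Matrix.mul_apply, single_sum']
      refine Finset.sum_congr rfl fun z _ => ?_
      rw [MonoidAlgebra.single_mul_single, one_mul]
    · simp only [h, if_false, mul_zero, Finset.sum_const_zero]
  · intro k _ hk
    simp only [bd, Matrix.of_apply]
    simp [Ne.symm hk]
  · intro h; exact absurd (Finset.mem_univ _) h

theorem bd_one : bd ι G (1 : Matrix N N R) = 1 := by
  ext ⟨i, x⟩ ⟨j, y⟩ : 1
  simp only [bd, Matrix.of_apply]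
  by_cases h : i = j
  · subst h
    by_cases h2 : x = y
    · subst h2
      rw [if_pos rfl, Matrix.one_apply_eq, Matrix.one_apply_eq]
      rfl
    · rw [if_pos rfl, Matrix.one_apply_ne h2, Matrix.one_apply_ne, MonoidAlgebra.single_zero]
      intro h3
      exact h2 (congrArg Prod.snd h3)
  · rw [if_neg h, Matrix.one_apply_ne]
    intro h3
    exact h (congrArg Prod.fst h3)

theorem rth_intertwine (ρ : G →* Matrix N N R) (σ : G →* Matrix N' N' R) (A : Matrix N N' R)
    (h3 : ∀ g, ρ g * A = A * σ g) (a : MonoidAlgebra R G) (x : N) (y : N') :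
    ∑ z, rth ρ a x z * MonoidAlgebra.single 1 (A z y) =
      ∑ z, MonoidAlgebra.single 1 (A x z) * rth σ a z y := by
  induction a using MonoidAlgebra.induction_linear with
  | zero => simp
  | add a b ha hb =>
    simp only [map_add, Matrix.add_apply, add_mul, mul_add, Finset.sum_add_distrib, ha, hb]
  | single g r =>
    simp only [rth_single, MonoidAlgebra.single_mul_single, mul_one, one_mul]
    rw [← single_sum', ← single_sum']
    congr 1
    have h4 := congrFun (congrFun (h3 g) x) y
    rw [Matrix.mul_apply, Matrix.mul_apply] at h4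
    simp only [mul_assoc, ← Finset.mul_sum]
    rw [h4, Finset.mul_sum]
    refine Finset.sum_congr rfl fun z _ => ?_
    ring

theorem zz_sim (ρ : G →* Matrix N N R) (σ : G →* Matrix N' N' R) (A : Matrix N N' R)
    (A' : Matrix N' N R) (h1 : A * A' = 1) (h2 : A' * A = 1) (h3 : ∀ g, ρ g * A = A * σ g)
    (w : (Matrix ι ι (MonoidAlgebra R G))ˣ) : zz ρ w = zz σ w := by
  unfold zz
  apply TK.ArtK.cl_compare _ _ (bd ι G A) (bd ι G A') (1 : R) isUnit_one
  · rw [bd_mul, h1, bd_one, one_smul]
  · rw [bd_mul, h2, bd_one, one_smul]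
  · ext ⟨i, x⟩ ⟨j, y⟩ : 1
    rw [Matrix.mul_apply, Matrix.mul_apply, Fintype.sum_prod_type, Fintype.sum_prod_type,
      Finset.sum_eq_single j, Finset.sum_eq_single i]
    · simp only [bd, Matrix.of_apply, if_true, blow_apply]
      exact rth_intertwine ρ σ A h3 _ _ _
    · intro k _ hk
      simp [bd, Ne.symm hk]
    · simp
    · intro k _ hk
      simp [bd, hk]
    · simp

/-! ### block triangular representations -/

/-- a diagonal block -/
def blk (ρ : G →* Matrix N N R) (e : N → Prop) [DecidablePred e]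
    (hm : ∀ (g g' : G) (x z : {x // e x}), (ρ (g * g')) x z = ∑ y : {x // e x}, ρ g x y * ρ g' y z) :
    G →* Matrix {x // e x} {x // e x} R where
  toFun g := Matrix.of fun x y => ρ g x y
  map_one' := by
    ext x y
    rw [Matrix.of_apply, map_one]
    by_cases h : x = y
    · subst h
      rw [Matrix.one_apply_eq, Matrix.one_apply_eq]
    · rw [Matrix.one_apply_ne h, Matrix.one_apply_ne (fun h' => h (Subtype.ext h'))]
  map_mul' g g' := by
    ext x y
    rw [Matrix.of_apply, hm, Matrix.mul_apply]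
    rfl

theorem blk_congr (ρ τ : G →* Matrix N N R) (e : N → Prop) [DecidablePred e] (hm) (hm')
    (h : ∀ (g : G) (x z : {x // e x}), ρ g x z = τ g x z) : blk ρ e hm = blk τ e hm' := by
  ext g x y
  exact h g x y

theorem sum_split (e : N → Prop) [DecidablePred e] {M : Type} [AddCommMonoid M] (f : N → M)
    (hf : ∀ y, ¬ e y → f y = 0) : ∑ y, f y = ∑ y : {x // e x}, f y := by
  rw [← Fintype.sum_subtype_add_sum_subtype e f,
    Finset.sum_eq_zero (s := (Finset.univ : Finset {x // ¬ e x})) (fun y _ => hf y y.2), add_zero]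

variable (e : N → Prop) [DecidablePred e]

theorem rth_zero (ρ : G →* Matrix N N R) (x y : N) (h : ∀ g, ρ g x y = 0) (a : MonoidAlgebra R G) :
    rth ρ a x y = 0 := by
  induction a using MonoidAlgebra.induction_linear with
  | zero => simp
  | add a b ha hb => rw [map_add, Matrix.add_apply, ha, hb, add_zero]
  | single g r => rw [rth_single, h, mul_zero, MonoidAlgebra.single_zero]

theorem rth_blk (ρ : G →* Matrix N N R) (e : N → Prop) [DecidablePred e] (hm)
    (a : MonoidAlgebra R G) (x y : {x // e x}) : rth (blk ρ e hm) a x y = rth ρ a x y := by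
  induction a using MonoidAlgebra.induction_linear with
  | zero => simp
  | add a b ha hb => rw [map_add, Matrix.add_apply, ha, hb, map_add, Matrix.add_apply]
  | single g r => rw [rth_single, rth_single]; rfl

/-- splitting of the index type -/
def spl (ι : Type) (e : N → Prop) [DecidablePred e] :
    ι × N ≃ (ι × {x // e x}) ⊕ (ι × {x // ¬ e x}) :=
  (Equiv.prodCongr (Equiv.refl ι) (Equiv.sumCompl e).symm).trans (Equiv.prodSumDistrib _ _ _)

theorem spl_symm_inl (i : ι) (x : {x // e x}) : (spl ι e).symm (Sum.inl (i, x)) = (i, x.1) := rfl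

theorem spl_symm_inr (i : ι) (x : {x // ¬ e x}) : (spl ι e).symm (Sum.inr (i, x)) = (i, x.1) := rfl

/-- lower block triangular representations -/
theorem zz_lower (ρ : G →* Matrix N N R) (h0 : ∀ g x y, e x → ¬ e y → ρ g x y = 0) (hm) (hm')
    (w : (Matrix ι ι (MonoidAlgebra R G))ˣ) :
    zz ρ w = zz (blk ρ e hm) w + zz (blk ρ (fun x => ¬ e x) hm') w := by
  unfold zz
  rw [← cl_reindex (spl ι e) (blow (rth ρ) w)]
  apply cl_lower _ _ (Matrix.of fun (p : ι × {x // ¬ e x}) (q : ι × {x // e x}) =>
    rth ρ ((w : Matrix ι ι (MonoidAlgebra R G)) p.1 q.1) p.2 q.2)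
  rw [reindexUnit_val]
  ext (⟨i, x⟩ | ⟨i, x⟩) (⟨j, y⟩ | ⟨j, y⟩) : 1
  · rw [Matrix.reindex_apply, Matrix.submatrix_apply, spl_symm_inl, spl_symm_inl,
      Matrix.fromBlocks_apply₁₁, blow_apply, blow_apply, rth_blk]
  · rw [Matrix.reindex_apply, Matrix.submatrix_apply, spl_symm_inl, spl_symm_inr,
      Matrix.fromBlocks_apply₁₂, blow_apply, rth_zero ρ _ _ (fun g => h0 g x y x.2 y.2)]
    rfl
  · rw [Matrix.reindex_apply, Matrix.submatrix_apply, spl_symm_inl, spl_symm_inr,
      Matrix.fromBlocks_apply₂₁, blow_apply]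
    rfl
  · rw [Matrix.reindex_apply, Matrix.submatrix_apply, spl_symm_inr, spl_symm_inr,
      Matrix.fromBlocks_apply₂₂, blow_apply, blow_apply, rth_blk]

/-- upper block triangular representations -/
theorem zz_upper (ρ : G →* Matrix N N R) (h0 : ∀ g x y, ¬ e x → e y → ρ g x y = 0) (hm) (hm')
    (w : (Matrix ι ι (MonoidAlgebra R G))ˣ) :
    zz ρ w = zz (blk ρ e hm) w + zz (blk ρ (fun x => ¬ e x) hm') w := by
  unfold zz
  rw [← cl_reindex (spl ι e) (blow (rth ρ) w)]
  apply cl_upper _ _ (Matrix.of fun (p : ι × {x // e x}) (q : ι × {x // ¬ e x}) =>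
    rth ρ ((w : Matrix ι ι (MonoidAlgebra R G)) p.1 q.1) p.2 q.2)
  rw [reindexUnit_val]
  ext (⟨i, x⟩ | ⟨i, x⟩) (⟨j, y⟩ | ⟨j, y⟩) : 1
  · rw [Matrix.reindex_apply, Matrix.submatrix_apply, spl_symm_inl, spl_symm_inl,
      Matrix.fromBlocks_apply₁₁, blow_apply, blow_apply, rth_blk]
  · rw [Matrix.reindex_apply, Matrix.submatrix_apply, spl_symm_inl, spl_symm_inr,
      Matrix.fromBlocks_apply₁₂, blow_apply]
    rfl
  · rw [Matrix.reindex_apply, Matrix.submatrix_apply, spl_symm_inl, spl_symm_inr,
      Matrix.fromBlocks_apply₂₁, blow_apply, rth_zero ρ _ _ (fun g => h0 g x y x.2 y.2)]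
    rfl
  · rw [Matrix.reindex_apply, Matrix.submatrix_apply, spl_symm_inr, spl_symm_inr,
      Matrix.fromBlocks_apply₂₂, blow_apply, blow_apply, rth_blk]

end rep

end

end Pool.Agent.Y69.TP
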