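import Pool.Agent.Y69.TP.Prp

/-!
# The traces on `K₁(K[G])` defined by ring homomorphisms `K → M_n(κ((X)))`
-/

namespace Pool.Agent.Y69.TP

open HahnSeries Finset Matrix H970SH H842 Pool.Agent.Y69

noncomputable section

variable {K κ : Type} [CommRing K] [CommRing κ] {X : Type} [Fintype X] [DecidableEq X]
  (ρ : K →+* Matrix X X (L κ))

/-- coefficientwise -/
def Tht (G : Type) [Group G] : MonoidAlgebra K G →+* Matrix X X (MonoidAlgebra (L κ) G) :=
  MonoidAlgebra.liftNCRingHom
    ((MonoidAlgebra.singleOneRingHom : L κ →+* MonoidAlgebra (L κ) G).mapMatrix.comp ρ)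
    ((Matrix.scalar X : MonoidAlgebra (L κ) G →+* Matrix X X (MonoidAlgebra (L κ) G)).toMonoidHom.comp
      (MonoidAlgebra.of (L κ) G))
    (by
      intro r g
      show _ * _ = _ * _
      ext x y : 1
      show (((ρ r).map MonoidAlgebra.singleOneRingHom : Matrix X X (MonoidAlgebra (L κ) G)) *
        (Matrix.diagonal fun _ => MonoidAlgebra.single g 1) : Matrix X X (MonoidAlgebra (L κ) G)) x y =
        ((Matrix.diagonal fun _ => MonoidAlgebra.single g 1) *
          ((ρ r).map MonoidAlgebra.singleOneRingHom : Matrix X X (MonoidAlgebra (L κ) G)) :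
          Matrix X X (MonoidAlgebra (L κ) G)) x y
      rw [Matrix.mul_diagonal, Matrix.diagonal_mul, Matrix.map_apply]
      show MonoidAlgebra.single 1 _ * _ = _ * MonoidAlgebra.single 1 _
      rw [MonoidAlgebra.single_mul_single, MonoidAlgebra.single_mul_single, one_mul, mul_one,
        mul_one, one_mul])

variable {G G' : Type} [Group G] [Group G']

theorem Tht_single (g : G) (r : K) (x y : X) :
    Tht ρ G (MonoidAlgebra.single g r) x y = MonoidAlgebra.single g (ρ r x y) := by
  have h1 : Tht ρ G (MonoidAlgebra.single g r) =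
      ((ρ r).map MonoidAlgebra.singleOneRingHom : Matrix X X (MonoidAlgebra (L κ) G)) *
        Matrix.diagonal fun _ => MonoidAlgebra.single g 1 := by
    show MonoidAlgebra.liftNC _ _ (MonoidAlgebra.single g r) = _
    rw [MonoidAlgebra.liftNC_single]
    rfl
  rw [h1, Matrix.mul_diagonal, Matrix.map_apply]
  show MonoidAlgebra.single 1 _ * _ = _
  rw [MonoidAlgebra.single_mul_single, one_mul, mul_one]

theorem Tht_mapDomain (φ : G →* G') :
    (MonoidAlgebra.mapDomainRingHom (L κ) φ).mapMatrix.comp (Tht ρ G) =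
      (Tht ρ G').comp (MonoidAlgebra.mapDomainRingHom K φ) := by
  apply RingHom.coe_addMonoidHom_injective
  apply MonoidAlgebra.addMonoidHom_ext
  intro m r
  ext x y : 1
  show MonoidAlgebra.mapDomainRingHom (L κ) φ (Tht ρ G (MonoidAlgebra.single m r) x y) =
    Tht ρ G' (MonoidAlgebra.mapDomainRingHom K φ (MonoidAlgebra.single m r)) x y
  rw [Tht_single, MonoidAlgebra.mapDomainRingHom_apply, MonoidAlgebra.mapDomain_single,
    MonoidAlgebra.mapDomainRingHom_apply, MonoidAlgebra.mapDomain_single, Tht_single]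

theorem Tht_ps {C : Type} [CommGroup C] (D : Subgroup C) [Fintype (C ⧸ D)] [DecidableEq (C ⧸ D)]
    (a : MonoidAlgebra K C) (y y' : C ⧸ D) (x x' : X) :
    Tht ρ D (Tra.ps K D a y y') x x' = Tra.ps (L κ) D (Tht ρ C a x x') y y' := by
  induction a using MonoidAlgebra.induction_linear with
  | zero => simp
  | add a b ha hb =>
    rw [map_add, Matrix.add_apply, map_add, Matrix.add_apply, ha, hb, map_add, Matrix.add_apply,
      map_add, Matrix.add_apply]
  | single g r =>
    rw [Tht_single, Tra.ps_single, Tra.ps_single, Matrix.smul_apply, Matrix.smul_apply]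
    show Tht ρ D (r • (if h : g • y' = y then MonoidAlgebra.of K D _ else 0)) x x' =
      ρ r x x' • (if h : g • y' = y then MonoidAlgebra.of (L κ) D _ else 0)
    by_cases h : g • y' = y
    · rw [dif_pos h, dif_pos h, MonoidAlgebra.of_apply, MonoidAlgebra.of_apply,
        MonoidAlgebra.smul_single, MonoidAlgebra.smul_single, Tht_single, smul_eq_mul, smul_eq_mul,
        mul_one, mul_one]
    · rw [dif_neg h, dif_neg h, smul_zero, smul_zero, map_zero, Matrix.zero_apply]

variable {W R : Type} [CommRing W] [CommRing R] (c : Cf W R κ)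
  {h : G → ℤ} (hh : ∀ x y, h (x * y) = h (y * x))

/-- the traces on `K₁(K[G])` -/
def TK : K1 (MonoidAlgebra K G) →+ R := (Tt c hh).comp (K1blow (Tht ρ G))

theorem TK_apply (x : K1 (MonoidAlgebra K G)) : TK ρ c hh x = Tt c hh (K1blow (Tht ρ G) x) := rfl

theorem TK_map (φ : G →* G') {h' : G' → ℤ} (hh' : ∀ x y, h' (x * y) = h' (y * x))
    (hh : ∀ x y, h' (φ (x * y)) = h' (φ (y * x))) (x : K1 (MonoidAlgebra K G)) :
    TK ρ c hh' (K1map (MonoidAlgebra.mapDomainRingHom K φ) x) =
      TK ρ c (h := fun g => h' (φ g)) hh x := by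
  rw [TK_apply, TK_apply, K1blow_map, ← Tht_mapDomain, ← K1map_blow, Tt_map c φ hh' hh]

section comm

variable {C : Type} [CommGroup C]

theorem TK_sum [Fintype C] {h : C → ℤ} (hh : ∀ x y, h (x * y) = h (y * x))
    (x : K1 (MonoidAlgebra K C)) :
    TK ρ c hh x = ∑ d : C, h d • TK ρ c (dl_comm d) x := by
  rw [TK_apply, Tt_sum]
  rfl

theorem TK_ps (D : Subgroup C) [Fintype (C ⧸ D)] [DecidableEq (C ⧸ D)] (d : D)
    (x : K1 (MonoidAlgebra K C)) :
    TK ρ c (dl_comm d) (K1blow (Tra.ps K D) x) =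
      (Fintype.card (C ⧸ D)) • TK ρ c (dl_comm (d : C)) x := by
  rw [TK_apply, TK_apply, ← Tt_ps]
  congr 1
  apply K1blow_comm
  intro a x x' y y'
  exact Tht_ps ρ D a x x' y y'

variable {K' : Type} [CommRing K'] (j : K →+* K') (ρ' : K' →+* Matrix X X (L κ))

/-- evaluation of a character -/
def evc (χ : C →* K') : MonoidAlgebra K C →+* K' :=
  MonoidAlgebra.liftNCRingHom j χ (fun x y => Commute.all (j x) (χ y))

theorem evc_single (χ : C →* K') (d : C) (r : K) :
    evc j χ (MonoidAlgebra.single d r) = j r * χ d := by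
  show MonoidAlgebra.liftNC _ _ (MonoidAlgebra.single d r) = _
  rw [MonoidAlgebra.liftNC_single]
  rfl

theorem ev_id (χ : C →* K') (ψ : C →* κ)
    (hψ : ∀ d, ρ' (χ d) = (HahnSeries.C (ψ d) : L κ) • (1 : Matrix X X (L κ)))
    (a : MonoidAlgebra K C) (x y : X) :
    MonoidAlgebra.mapDomainRingHom (L κ) (1 : C →* PUnit.{1})
      (tw ψ (Tht (ρ'.comp j) C a x y)) = MonoidAlgebra.single 1 (ρ' (evc j χ a) x y) := by
  induction a using MonoidAlgebra.induction_linear with
  | zero => simp
  | add a b ha hb =>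
    rw [map_add, Matrix.add_apply, map_add, map_add, ha, hb, map_add, map_add, Matrix.add_apply,
      MonoidAlgebra.single_add]
  | single g r =>
    rw [Tht_single, tw_single, MonoidAlgebra.mapDomainRingHom_apply,
      MonoidAlgebra.mapDomain_single, evc_single j χ, ρ'.map_mul, hψ]
    congr 1
    rw [Matrix.mul_smul, Matrix.mul_one, Matrix.smul_apply, smul_eq_mul]
    rfl

/-- vanishing of the traces and characters -/
theorem detect [Finite C] (χ : C →* K') (ψ : C →* κ) (Ψ : C →* R) (hΨ : ∀ d, c.f (Ψ d) = ψ d)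
    (hψ : ∀ d, ρ' (χ d) = (HahnSeries.C (ψ d) : L κ) • (1 : Matrix X X (L κ)))
    (u : (MonoidAlgebra K C)ˣ)
    (hu : ρ' (evc j χ (u : MonoidAlgebra K C)) =
      (HahnSeries.single (1 : ℤ) (1 : κ) : L κ) • (1 : Matrix X X (L κ)))
    (h0 : ∀ d : C, TK (ρ'.comp j) c (dl_comm d) (cl (unit1 u)) = 0) : (Fintype.card X : R) = 0 := by
  have := Fintype.ofFinite C
  have h1 : Tt c (h := fun _ : C => (1 : ℤ)) (fun _ _ => rfl)
      (K1map (tw ψ) (K1blow (Tht (ρ'.comp j) C) (cl (unit1 u)))) = 0 := by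
    rw [Tt_sum]
    refine Finset.sum_eq_zero fun d _ => ?_
    rw [Tt_tw c ψ Ψ hΨ, ← TK_apply, h0, mul_zero, smul_zero]
  have h2 := Tt_map c (1 : C →* PUnit.{1}) (h' := fun _ => (1 : ℤ)) (fun _ _ => rfl)
    (fun _ _ => rfl) (K1map (tw ψ) (K1blow (Tht (ρ'.comp j) C) (cl (unit1 u))))
  rw [h1, K1blow_cl, K1map_cl, K1map_cl, Tt_X] at h2
  · rw [Int.cast_one, one_mul, Fintype.card_prod, Fintype.card_unit, one_mul] at h2
    exact h2
  · rintro ⟨i, x⟩ ⟨i', y⟩
    rw [mapUnit_val, mapUnit_val, Matrix.map_apply, Matrix.map_apply, blow_apply]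
    show MonoidAlgebra.mapDomainRingHom (L κ) (1 : C →* PUnit.{1})
      (tw ψ (Tht (ρ'.comp j) C (u : MonoidAlgebra K C) x y)) = _
    rw [ev_id j ρ' χ ψ hψ, hu, Matrix.smul_apply]
    by_cases h : x = y
    · subst h
      rw [if_pos (by rw [Subsingleton.elim i i']), Matrix.one_apply_eq, smul_eq_mul, mul_one]
    · rw [if_neg (fun h' => h (congrArg Prod.snd h')), Matrix.one_apply_ne h, smul_zero,
        MonoidAlgebra.single_zero]

end comm

end

end Pool.Agent.Y69.TP
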