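import Pool.Agent.Y69.TP.Der
import Pool.Agent.Y69.TP.Lau
import Pool.Agent.Y69.KTr

/-!
# The residue trace on `K₁` of a group ring over Laurent series
-/

namespace Pool.Agent.Y69.TP

open HahnSeries Finset Matrix

noncomputable section

section grp

variable {R R' : Type} [CommRing R] [CommRing R'] {G G' : Type} [Group G] [Group G']

/-- coefficientwise derivation -/
def dG : MonoidAlgebra (L R) G →+ MonoidAlgebra (L R) G :=
  (MonoidAlgebra.coeffAddEquiv.symm.toAddMonoidHom).comp
    ((Finsupp.mapRange.addMonoidHom th).comp MonoidAlgebra.coeffAddEquiv.toAddMonoidHom)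

theorem dG_single (g : G) (r : L R) :
    dG (MonoidAlgebra.single g r) = MonoidAlgebra.single g (th r) := by
  show MonoidAlgebra.ofCoeff (Finsupp.mapRange.addMonoidHom th (Finsupp.single g r)) = _
  rw [Finsupp.mapRange.addMonoidHom_apply, Finsupp.mapRange_single]
  rfl

theorem dG_mul (x y : MonoidAlgebra (L R) G) : dG (x * y) = dG x * y + x * dG y := by
  induction x using MonoidAlgebra.induction_linear with
  | zero => simp
  | add a b ha hb => rw [add_mul, map_add, ha, hb, map_add, add_mul, add_mul]; abel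
  | single g r =>
    induction y using MonoidAlgebra.induction_linear with
    | zero => simp
    | add a b ha hb => rw [mul_add, map_add, ha, hb, map_add, mul_add, mul_add]; abel
    | single h s =>
      rw [MonoidAlgebra.single_mul_single, dG_single, dG_single, dG_single,
        MonoidAlgebra.single_mul_single, MonoidAlgebra.single_mul_single, th_mul,
        MonoidAlgebra.single_add]

/-- the trace -/
def tau (h : G → ℤ) : MonoidAlgebra (L R) G →+ R :=
  (Finsupp.liftAddHom (fun g => (h g) • (CT : L R →+ R))).comp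
    MonoidAlgebra.coeffAddEquiv.toAddMonoidHom

theorem tau_single (h : G → ℤ) (g : G) (r : L R) :
    tau h (MonoidAlgebra.single g r) = h g • CT r := by
  show Finsupp.liftAddHom (fun g => (h g) • (CT : L R →+ R)) (Finsupp.single g r) = _
  rw [Finsupp.liftAddHom_apply_single]
  rfl

theorem tau_comm {h : G → ℤ} (hh : ∀ x y, h (x * y) = h (y * x)) (x y : MonoidAlgebra (L R) G) :
    tau h (x * y) = tau h (y * x) := by
  induction x using MonoidAlgebra.induction_linear with
  | zero => simp
  | add a b ha hb => rw [add_mul, map_add, ha, hb, mul_add, map_add]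
  | single g r =>
    induction y using MonoidAlgebra.induction_linear with
    | zero => simp
    | add a b ha hb => rw [mul_add, map_add, ha, hb, add_mul, map_add]
    | single h s =>
      rw [MonoidAlgebra.single_mul_single, MonoidAlgebra.single_mul_single, tau_single, tau_single,
        hh, mul_comm r s]

theorem tau_dG (h : G → ℤ) (x : MonoidAlgebra (L R) G) : tau h (dG x) = 0 := by
  induction x using MonoidAlgebra.induction_linear with
  | zero => simp
  | add a b ha hb => rw [map_add, map_add, ha, hb, add_zero]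
  | single g r => rw [dG_single, tau_single, CT_th, smul_zero]

theorem dG_mapRing (f : R →+* R') (x : MonoidAlgebra (L R) G) :
    dG (MonoidAlgebra.mapRingHom G (Lm f) x) = MonoidAlgebra.mapRingHom G (Lm f) (dG x) := by
  induction x using MonoidAlgebra.induction_linear with
  | zero => simp
  | add a b ha hb => rw [map_add, map_add, ha, hb, map_add, map_add]
  | single g r =>
    rw [dG_single, MonoidAlgebra.mapRingHom_single, MonoidAlgebra.mapRingHom_single, dG_single, Lm_th]

theorem tau_mapRing (f : R →+* R') (h : G → ℤ) (x : MonoidAlgebra (L R) G) :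
    tau h (MonoidAlgebra.mapRingHom G (Lm f) x) = f (tau h x) := by
  induction x using MonoidAlgebra.induction_linear with
  | zero => simp
  | add a b ha hb => rw [map_add, map_add, ha, hb, map_add, map_add]
  | single g r =>
    rw [MonoidAlgebra.mapRingHom_single, tau_single, tau_single, map_zsmul, Lm_CT]

theorem dG_mapDomain (φ : G →* G') (x : MonoidAlgebra (L R) G) :
    dG (MonoidAlgebra.mapDomainRingHom (L R) φ x) =
      MonoidAlgebra.mapDomainRingHom (L R) φ (dG x) := by
  induction x using MonoidAlgebra.induction_linear with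
  | zero => simp
  | add a b ha hb => rw [map_add, map_add, ha, hb, map_add, map_add]
  | single g r =>
    rw [dG_single, MonoidAlgebra.mapDomainRingHom_apply, MonoidAlgebra.mapDomainRingHom_apply,
      MonoidAlgebra.mapDomain_single, MonoidAlgebra.mapDomain_single, dG_single]

theorem tau_mapDomain (φ : G →* G') (h : G' → ℤ) (x : MonoidAlgebra (L R) G) :
    tau h (MonoidAlgebra.mapDomainRingHom (L R) φ x) = tau (fun g => h (φ g)) x := by
  induction x using MonoidAlgebra.induction_linear with
  | zero => simp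
  | add a b ha hb => rw [map_add, map_add, ha, hb, map_add]
  | single g r =>
    rw [MonoidAlgebra.mapDomainRingHom_apply, MonoidAlgebra.mapDomain_single, tau_single, tau_single]

theorem mapRing_surj (f : R →+* R') (hf : Function.Surjective f) :
    Function.Surjective (MonoidAlgebra.mapRingHom G (Lm f)) := by
  intro y
  induction y using MonoidAlgebra.induction_linear with
  | zero => exact ⟨0, map_zero _⟩
  | add a b ha hb =>
    obtain ⟨a', rfl⟩ := ha
    obtain ⟨b', rfl⟩ := hb
    exact ⟨a' + b', map_add _ _ _⟩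
  | single g r =>
    obtain ⟨s, rfl⟩ := Lm_surj f hf r
    exact ⟨MonoidAlgebra.single g s, MonoidAlgebra.mapRingHom_single _ _ _⟩

theorem mapRing_ker (f : R →+* R') (P : R) (hf : ∀ x, f x = 0 → ∃ y, x = P * y)
    (x : MonoidAlgebra (L R) G) (hx : MonoidAlgebra.mapRingHom G (Lm f) x = 0) :
    ∃ y : MonoidAlgebra (L R) G, x = (C P : L R) • y := by
  have h1 : ∀ g, ∃ y : L R, x.coeff g = C P * y := by
    intro g
    apply Lm_ker f P hf
    have h2 := congrArg (fun z => z.coeff g) hx
    simpa using h2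
  choose s hs using h1
  refine ⟨∑ g ∈ x.coeff.support, MonoidAlgebra.single g (s g), ?_⟩
  rw [Finset.smul_sum]
  conv_lhs => rw [← MonoidAlgebra.sum_coeff_single x]
  unfold Finsupp.sum
  refine Finset.sum_congr rfl fun g _ => ?_
  rw [MonoidAlgebra.smul_single, smul_eq_mul, ← hs]

end grp

section mat

variable {R R' : Type} [CommRing R] [CommRing R'] {G G' : Type} [Group G] [Group G']
  {ι κ : Type} [Fintype ι] [DecidableEq ι] [Fintype κ] [DecidableEq κ]

/-- the derivation of the matrix ring -/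
def dM : Matrix ι ι (MonoidAlgebra (L R) G) →+ Matrix ι ι (MonoidAlgebra (L R) G) :=
  (dG : MonoidAlgebra (L R) G →+ MonoidAlgebra (L R) G).mapMatrix

theorem dM_apply (X : Matrix ι ι (MonoidAlgebra (L R) G)) (i j : ι) : dM X i j = dG (X i j) := rfl

/-- the trace of the matrix ring -/
def trM (h : G → ℤ) : Matrix ι ι (MonoidAlgebra (L R) G) →+ R :=
  (tau h).comp (traceAddMonoidHom ι (MonoidAlgebra (L R) G))

theorem trM_apply (h : G → ℤ) (X : Matrix ι ι (MonoidAlgebra (L R) G)) :
    trM h X = ∑ i, tau h (X i i) := by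
  show tau h (∑ i, X i i) = _
  rw [map_sum]

/-- the derivation and the trace of a matrix ring -/
def dt (ι : Type) [Fintype ι] [DecidableEq ι] (R : Type) [CommRing R] (G : Type) [Group G]
    (h : G → ℤ) (hh : ∀ x y, h (x * y) = h (y * x)) :
    DT (Matrix ι ι (MonoidAlgebra (L R) G)) R where
  d := dM
  tr := trM h
  leib X Y := by
    ext i j : 1
    rw [dM_apply, Matrix.mul_apply, map_sum, Matrix.add_apply, Matrix.mul_apply, Matrix.mul_apply,
      ← Finset.sum_add_distrib]
    refine Finset.sum_congr rfl fun k _ => ?_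
    rw [dG_mul, dM_apply, dM_apply]
  comm X Y := by
    rw [trM_apply, trM_apply]
    simp only [Matrix.mul_apply, map_sum]
    rw [Finset.sum_comm]
    refine Finset.sum_congr rfl fun i _ => Finset.sum_congr rfl fun j _ => ?_
    exact tau_comm hh _ _
  trd X := by
    rw [trM_apply]
    exact Finset.sum_eq_zero fun i _ => tau_dG h _

variable {h : G → ℤ} (hh : ∀ x y, h (x * y) = h (y * x))

theorem D_apply (U : (Matrix ι ι (MonoidAlgebra (L R) G))ˣ) : (dt ι R G h hh).D U =
    ∑ i, tau h ((((U⁻¹ : (Matrix ι ι (MonoidAlgebra (L R) G))ˣ) : Matrix ι ι (MonoidAlgebra (L R) G)) *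
      dM (U : Matrix ι ι (MonoidAlgebra (L R) G))) i i) := by
  show trM h _ = _
  rw [trM_apply]
  rfl

/-- reduction of matrices -/
def red (f : R →+* R') (ι : Type) [Fintype ι] [DecidableEq ι] (G : Type) [Group G] :
    Matrix ι ι (MonoidAlgebra (L R) G) →+* Matrix ι ι (MonoidAlgebra (L R') G) :=
  (MonoidAlgebra.mapRingHom G (Lm f)).mapMatrix

theorem dM_red (f : R →+* R') (X : Matrix ι ι (MonoidAlgebra (L R) G)) :
    dM (red f ι G X) = red f ι G (dM X) := by
  ext i j : 1
  exact dG_mapRing f _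

theorem trM_red (f : R →+* R') (h : G → ℤ) (X : Matrix ι ι (MonoidAlgebra (L R) G)) :
    trM h (red f ι G X) = f (trM h X) := by
  rw [trM_apply, trM_apply, map_sum]
  exact Finset.sum_congr rfl fun i _ => tau_mapRing f h _

theorem red_surj (f : R →+* R') (hf : Function.Surjective f) :
    Function.Surjective (red f ι G) := by
  intro Y
  choose X hX using fun i j => mapRing_surj f hf (Y i j)
  refine ⟨Matrix.of X, ?_⟩
  ext i j : 1
  exact hX i j

theorem red_nil (f : R →+* R') (P : R) (N : ℕ) (hP : P ^ N = 0)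
    (hf : ∀ x, f x = 0 → ∃ y, x = P * y) (X : Matrix ι ι (MonoidAlgebra (L R) G))
    (hX : red f ι G X = 0) : IsNilpotent X := by
  have h1 : ∀ i j, ∃ y : MonoidAlgebra (L R) G, X i j = (C P : L R) • y := fun i j =>
    mapRing_ker f P hf (X i j) (congrFun (congrFun hX i) j)
  choose Y hY using h1
  have h2 : X = (C P : L R) • Matrix.of Y := by
    ext i j : 1
    exact hY i j
  refine ⟨N, ?_⟩
  rw [h2, smul_pow, ← map_pow, hP, map_zero, zero_smul]

theorem D_reindex (e : ι ≃ κ) (U : (Matrix ι ι (MonoidAlgebra (L R) G))ˣ) :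
    (dt κ R G h hh).D (H842.reindexUnit e U) = (dt ι R G h hh).D U := by
  rw [D_apply, D_apply, ← e.sum_comp]
  refine Finset.sum_congr rfl fun i _ => ?_
  congr 1
  show ((Matrix.reindexRingEquiv _ e) ((U⁻¹ : (Matrix ι ι (MonoidAlgebra (L R) G))ˣ) :
      Matrix ι ι (MonoidAlgebra (L R) G)) * (Matrix.reindexRingEquiv _ e)
        (dM (U : Matrix ι ι (MonoidAlgebra (L R) G)))) (e i) (e i) = _
  rw [← map_mul]
  show (((U⁻¹ : (Matrix ι ι (MonoidAlgebra (L R) G))ˣ) : Matrix ι ι (MonoidAlgebra (L R) G)) *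
    dM (U : Matrix ι ι (MonoidAlgebra (L R) G))) (e.symm (e i)) (e.symm (e i)) = _
  rw [e.symm_apply_apply]

theorem dM_fromBlocks (A : Matrix ι ι (MonoidAlgebra (L R) G))
    (B : Matrix κ κ (MonoidAlgebra (L R) G)) :
    dM (fromBlocks A 0 0 B) = fromBlocks (dM A) 0 0 (dM B) := by
  ext (i | i) (j | j) : 1
  · rfl
  · exact (dG : MonoidAlgebra (L R) G →+ MonoidAlgebra (L R) G).map_zero
  · exact (dG : MonoidAlgebra (L R) G →+ MonoidAlgebra (L R) G).map_zero
  · rfl

theorem D_diagU (A : (Matrix ι ι (MonoidAlgebra (L R) G))ˣ)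
    (B : (Matrix κ κ (MonoidAlgebra (L R) G))ˣ) :
    (dt (ι ⊕ κ) R G h hh).D (H842.diagU A B) = (dt ι R G h hh).D A + (dt κ R G h hh).D B := by
  rw [D_apply, D_apply, D_apply, Fintype.sum_sum_type]
  have h1 : (((H842.diagU A B)⁻¹ : (Matrix (ι ⊕ κ) (ι ⊕ κ) (MonoidAlgebra (L R) G))ˣ) :
      Matrix (ι ⊕ κ) (ι ⊕ κ) (MonoidAlgebra (L R) G)) * dM (H842.diagU A B :
        Matrix (ι ⊕ κ) (ι ⊕ κ) (MonoidAlgebra (L R) G)) =
      fromBlocks (((A⁻¹ : (Matrix ι ι (MonoidAlgebra (L R) G))ˣ) :
        Matrix ι ι (MonoidAlgebra (L R) G)) * dM (A : Matrix ι ι (MonoidAlgebra (L R) G))) 0 0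
        (((B⁻¹ : (Matrix κ κ (MonoidAlgebra (L R) G))ˣ) :
        Matrix κ κ (MonoidAlgebra (L R) G)) * dM (B : Matrix κ κ (MonoidAlgebra (L R) G))) := by
    rw [H842.diagU_val, dM_fromBlocks]
    show fromBlocks _ 0 0 _ * _ = _
    rw [fromBlocks_multiply]
    simp
  rw [h1]
  rfl

end mat

section k1

open H970SH H842

variable {W R κ : Type} [CommRing W] [CommRing R] [CommRing κ]

/-- lifting data for a coefficient ring -/
structure Cf (W R κ : Type) [CommRing W] [CommRing R] [CommRing κ] where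
  /-- quotient map -/
  q : W →+* R
  /-- quotient map -/
  f : R →+* κ
  hq : Function.Surjective q
  hf : Function.Surjective f
  tf : ∀ (n : ℕ) (l : W), (n + 1) • l = 0 → l = 0
  /-- generator of the kernel -/
  P : R
  /-- exponent -/
  N : ℕ
  hP : P ^ N = 0
  ker : ∀ x, f x = 0 → ∃ y, x = P * y

variable (c : Cf W R κ) {G : Type} [Group G]

/-- the package for matrices -/
def stp (ι : Type) [Fintype ι] [DecidableEq ι] (G : Type) [Group G]
    (h : G → ℤ) (hh : ∀ x y, h (x * y) = h (y * x)) :
    Stp (Matrix ι ι (MonoidAlgebra (L R) G)) (Matrix ι ι (MonoidAlgebra (L κ) G)) R where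
  S := dt ι R G h hh
  π := red c.f ι G
  surj := red_surj c.f c.hf
  nil := red_nil c.f c.P c.N c.hP c.ker
  van := DT.van_of (dt ι W G h hh) (dt ι R G h hh) c.tf (red c.q ι G) (red_surj c.q c.hq)
    c.q.toAddMonoidHom (dM_red c.q) (trM_red c.q h)

variable {h : G → ℤ} (hh : ∀ x y, h (x * y) = h (y * x))
  {ι μ : Type} [Fintype ι] [DecidableEq ι] [Fintype μ] [DecidableEq μ]

theorem stp_lift (M : (Matrix ι ι (MonoidAlgebra (L κ) G))ˣ) :
    ∃ U : (Matrix ι ι (MonoidAlgebra (L R) G))ˣ,
      mapUnit (MonoidAlgebra.mapRingHom G (Lm c.f)) U = M := by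
  obtain ⟨U, hU⟩ := (stp c ι G (fun _ => 0) (fun _ _ => rfl)).exists_lift M
  exact ⟨U, Units.ext hU⟩

theorem stp_eq (U : (Matrix ι ι (MonoidAlgebra (L R) G))ˣ) :
    (stp c ι G h hh).T (mapUnit (MonoidAlgebra.mapRingHom G (Lm c.f)) U) = (dt ι R G h hh).D U :=
  (stp c ι G h hh).T_eq _ _ rfl

theorem exists_T : ∃ T : K1 (MonoidAlgebra (L κ) G) →+ R,
    ∀ (ι : Type) [Fintype ι] [DecidableEq ι] (U : (Matrix ι ι (MonoidAlgebra (L R) G))ˣ),
      T (cl (mapUnit (MonoidAlgebra.mapRingHom G (Lm c.f)) U)) = (dt ι R G h hh).D U := by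
  obtain ⟨T, hT⟩ := KTr.K1_lift (R := MonoidAlgebra (L κ) G)
    (fun n M => (stp c (Fin n) G h hh).T M)
    (fun n M N => (stp c (Fin n) G h hh).T_mul M N) (by
      intro n M N hN
      obtain ⟨U, rfl⟩ := stp_lift c M
      have h1 : N = mapUnit (MonoidAlgebra.mapRingHom G (Lm c.f))
          (reindexUnit finSumFinEquiv (diagU U 1)) := by
        apply Units.ext
        rw [hN, mapUnit_val, mapUnit_val, reindexUnit_val, diagU_val]
        ext i j : 1
        simp only [Matrix.map_apply, Matrix.reindex_apply, Matrix.submatrix_apply]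
        rcases h1 : finSumFinEquiv.symm i with a | a <;> rcases h2 : finSumFinEquiv.symm j with b | b
        · simp
        · simp
        · simp
        · rw [Matrix.fromBlocks_apply₂₂, Matrix.fromBlocks_apply₂₂, Subsingleton.elim a b,
            Matrix.one_apply_eq, Units.val_one, Matrix.one_apply_eq, map_one]
      rw [h1, stp_eq, stp_eq, D_reindex, D_diagU, (dt (Fin 1) R G h hh).D_one, add_zero])
  refine ⟨T, ?_⟩
  intro ι _ _ U
  unfold cl
  rw [hT, ← mapUnit_reindex, stp_eq, D_reindex]

/-- the trace on `K₁` -/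
def Tt : K1 (MonoidAlgebra (L κ) G) →+ R := (exists_T c hh).choose

theorem Tt_cl (U : (Matrix ι ι (MonoidAlgebra (L R) G))ˣ) :
    Tt c hh (cl (mapUnit (MonoidAlgebra.mapRingHom G (Lm c.f)) U)) = (dt ι R G h hh).D U :=
  (exists_T c hh).choose_spec ι U

theorem K1_lift_exists (x : K1 (MonoidAlgebra (L κ) G)) :
    ∃ (n : ℕ) (U : (Matrix (Fin n) (Fin n) (MonoidAlgebra (L R) G))ˣ),
      x = cl (mapUnit (MonoidAlgebra.mapRingHom G (Lm c.f)) U) := by
  obtain ⟨n, M, rfl⟩ := K1_exists x
  obtain ⟨U, rfl⟩ := stp_lift c M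
  exact ⟨n, U, rfl⟩

end k1

end

end Pool.Agent.Y69.TP
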